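import Pool.Agent.U916.GT.Cnt
import Pool.Agent.Y159.QS.Main

/-!
# Collisions on average over the discriminants
-/

set_option autoImplicit false

namespace Pool.Agent.U916.GT

open Finset Pool.Agent.TH869.EVF Pool.Agent.Y159.QS
open scoped Classical

lemma qr_ndvd {p : ℕ} (hp : p.Prime) {D : ℤ} (h : QR p D) : ¬ (p : ℤ) ∣ D := by
  intro hd
  obtain ⟨r, h1, h2⟩ := h
  haveI : Fact p.Prime := ⟨hp⟩
  have h3 : ((D : ℤ) : ZMod p) = 0 := (ZMod.intCast_zmod_eq_zero_iff_dvd D p).2 hd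
  rw [h3] at h1
  have : r = 0 := (pow_eq_zero_iff two_ne_zero).1 h1
  rw [this, mul_zero] at h2
  exact h2 rfl

/-- a collision gives a primitive representation -/
lemma coll_rep {l : ℕ} {Z X : ℝ} {D : ℤ} {p q : ℕ} (hZ : 0 ≤ Z) (hX : 0 < X) (hXD : X ≤ |(D : ℝ)|)
    (hpq : (((p * q) ^ l : ℕ) : ℝ) ≤ Z ^ 2) (h : Coll l Z D p q) :
    ∃ n : ℤ, (n = 1 ∨ n = -1 ∨ n = 4 ∨ n = -4) ∧ ∃ x y : ℤ, IsCoprime x y ∧ 1 ≤ y ∧
      x ^ 2 + (-D) * y ^ 2 = ((p * q : ℕ) : ℤ) ^ l * n ∧ |(x : ℝ)| ≤ 4 * Z ∧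
      |(y : ℝ)| ≤ 3 * Z / √X := by
  obtain ⟨k, a, σ, hk, hσ, he, hg, hb⟩ := h
  have hσ1 : |(σ : ℝ)| = 1 := by rcases hσ with rfl | rfl <;> simp
  have hM0 : (0 : ℝ) ≤ (((p * q) ^ l : ℕ) : ℝ) := Nat.cast_nonneg _
  have ha : |(a : ℝ)| ≤ 4 * Z := by
    apply abs_le_of_sq_le_sq _ (by positivity)
    have e1 : (a : ℝ) ^ 2 = (k : ℝ) ^ 2 * D + 4 * σ * (((p * q) ^ l : ℕ) : ℝ) := by
      have : ((a ^ 2 : ℤ) : ℝ) = (((k : ℤ) ^ 2 * D + 4 * σ * (((p * q) ^ l : ℕ) : ℤ) : ℤ) : ℝ) := by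
        rw [he]; congr 1; ring
      push_cast at this ⊢
      exact this
    have e2 : (k : ℝ) ^ 2 * D ≤ (k : ℝ) ^ 2 * |(D : ℝ)| :=
      mul_le_mul_of_nonneg_left (le_abs_self _) (by positivity)
    have e3 : 4 * (σ : ℝ) * (((p * q) ^ l : ℕ) : ℝ) ≤ 4 * (((p * q) ^ l : ℕ) : ℝ) := by
      have : (σ : ℝ) ≤ 1 := (le_abs_self _).trans hσ1.le
      nlinarith
    rw [e1]
    nlinarith
  have hkb : (k : ℝ) ≤ 3 * Z / √X := by
    rw [le_div_iff₀ (Real.sqrt_pos.2 hX)]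
    have h1 : (k : ℝ) ^ 2 * X ≤ 8 * Z ^ 2 :=
      (mul_le_mul_of_nonneg_left hXD (by positivity)).trans hb
    have h2 : ((k : ℝ) * √X) ^ 2 ≤ (3 * Z) ^ 2 := by
      rw [mul_pow, Real.sq_sqrt hX.le]
      nlinarith
    exact (pow_le_pow_iff_left₀ (by positivity) (by positivity) two_ne_zero).mp h2
  have hMI : ((p * q : ℕ) : ℤ) ^ l = (((p * q) ^ l : ℕ) : ℤ) := by push_cast; rfl
  have hg0 : Int.gcd a k ≠ 0 := by
    intro h0
    rw [h0] at hg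
    exact two_ne_zero (zero_dvd_iff.1 hg)
  have hg2 : Int.gcd a k ≤ 2 := Nat.le_of_dvd (by norm_num) hg
  have hcase : Int.gcd a k = 1 ∨ Int.gcd a k = 2 := by omega
  have hkR : |((k : ℤ) : ℝ)| = (k : ℝ) := by
    rw [Int.cast_natCast, abs_of_nonneg (Nat.cast_nonneg k)]
  rcases hcase with h1 | h2
  · refine ⟨4 * σ, ?_, a, k, Int.isCoprime_iff_gcd_eq_one.2 h1, by exact_mod_cast hk, ?_, ha, ?_⟩
    · rcases hσ with rfl | rfl
      · right; right; left; norm_num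
      · right; right; right; norm_num
    · rw [hMI]
      linear_combination -he
    · rw [hkR]
      exact hkb
  · obtain ⟨a', ha'⟩ : (2 : ℤ) ∣ a := by
      have := Int.gcd_dvd_left a (k : ℤ)
      rw [h2] at this
      exact_mod_cast this
    obtain ⟨k', hk'⟩ : (2 : ℤ) ∣ (k : ℤ) := by
      have := Int.gcd_dvd_right a (k : ℤ)
      rw [h2] at this
      exact_mod_cast this
    have hcop : IsCoprime a' k' := by
      rw [Int.isCoprime_iff_gcd_eq_one]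
      have h3 : Int.gcd (2 * a') (2 * k') = 2 := by rw [← ha', ← hk']; exact h2
      rw [Int.gcd_mul_left] at h3
      have : (2 : ℤ).natAbs = 2 := rfl
      rw [this] at h3
      omega
    refine ⟨σ, ?_, a', k', hcop, by omega, ?_, ?_, ?_⟩
    · rcases hσ with rfl | rfl
      · left; rfl
      · right; left; rfl
    · rw [hMI]
      have h4 : (4 : ℤ) * (a' ^ 2 + -D * k' ^ 2) = 4 * ((((p * q) ^ l : ℕ) : ℤ) * σ) := by
        rw [ha', hk'] at he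
        linear_combination -he
      exact mul_left_cancel₀ (by norm_num) h4
    · have h5 : |(a : ℝ)| = 2 * |(a' : ℝ)| := by
        rw [ha']
        push_cast
        rw [abs_mul, abs_two]
      have := abs_nonneg (a' : ℝ)
      linarith
    · have h5 : (k : ℝ) = 2 * |(k' : ℝ)| := by
        rw [← hkR, hk']
        push_cast
        rw [abs_mul, abs_two]
      have := abs_nonneg (k' : ℝ)
      linarith

/-- the number of the discriminants with a collision of two given primes -/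
theorem pair (l k : ℕ) (hk : 1 ≤ k) (hkl : k ≤ l) (ε : ℝ) (hε : 0 < ε) : ∃ C X0 : ℝ, 0 < C ∧ 1 ≤ X0 ∧
    ∀ X : ℝ, X0 ≤ X → ∀ z : ℕ, 5 ≤ z → ((z : ℝ) ^ 2) ^ k ≤ X →
    X ^ (1 - (k : ℝ) ^ 2 / (4 * (l : ℝ) ^ 2)) ≤ ((z : ℝ) ^ 2 / 4) ^ k →
    ∀ p ∈ Qz z, ∀ q ∈ Qz z, q ≠ p → ∀ S : Finset ℤ, (∀ D ∈ S, X ≤ |(D : ℝ)| ∧ |(D : ℝ)| ≤ 2 * X) →
    ((S.filter (fun D => QR p D ∧ QR q D ∧ Coll l ((150 * (z : ℝ)) ^ l) D p q)).card : ℝ) ≤
      C * X ^ ε * ((z : ℝ) ^ 2) ^ k := by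
  obtain ⟨C, X0, hC0, hX01, hmain⟩ := cnt l k hk hkl (12 * 150 ^ (2 * l) * 4 ^ l) (l + 1)
    (by
      have h1 : (1 : ℝ) ≤ 150 ^ (2 * l) := one_le_pow₀ (by norm_num)
      have h2 : (1 : ℝ) ≤ 4 ^ l := one_le_pow₀ (by norm_num)
      nlinarith) (by positivity) ε hε
  refine ⟨8 * C, max X0 (4 * 150 ^ l), by positivity, le_max_of_le_left hX01, ?_⟩
  intro X hX z hz hzX hXz p hp q hq hqp S hS
  have hX1 : 1 ≤ X := hX01.trans ((le_max_left _ _).trans hX)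
  have hX0 : 0 < X := by linarith
  have hX2 : 4 * 150 ^ l ≤ X := (le_max_right _ _).trans hX
  obtain ⟨hpp, hp2, hpz⟩ := mem_Qz hp
  obtain ⟨hqp', hq2, hqz⟩ := mem_Qz hq
  have hz5 : (5 : ℝ) ≤ z := by exact_mod_cast hz
  have hz0 : (0 : ℝ) < z := by linarith
  have hpzR : (p : ℝ) ≤ z := by exact_mod_cast hpz
  have hqzR : (q : ℝ) ≤ z := by exact_mod_cast hqz
  have hne2 : ∀ r : ℕ, (z : ℝ) / 2 ≤ r → r ≠ 2 := by
    rintro r hr rfl
    push_cast at hr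
    linarith
  have hPle : ((p * q : ℕ) : ℝ) ≤ (z : ℝ) ^ 2 := by
    push_cast
    rw [sq]
    exact mul_le_mul hpzR hqzR (Nat.cast_nonneg _) hz0.le
  have hPge : (z : ℝ) ^ 2 / 4 ≤ ((p * q : ℕ) : ℝ) := by
    push_cast
    have := mul_le_mul hp2 hq2 (by positivity) (Nat.cast_nonneg _)
    calc (z : ℝ) ^ 2 / 4 = (z : ℝ) / 2 * (z / 2) := by ring
      _ ≤ _ := this
  have hPk : ((p * q : ℕ) : ℝ) ^ k ≤ ((z : ℝ) ^ 2) ^ k := pow_le_pow_left₀ (Nat.cast_nonneg _) hPle k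
  obtain ⟨Z, hZ⟩ : ∃ Z : ℝ, Z = (150 * (z : ℝ)) ^ l := ⟨_, rfl⟩
  have hZ0 : 0 < Z := by rw [hZ]; positivity
  rw [← hZ]
  have hzX' : (z : ℝ) ≤ X := by
    refine le_trans ?_ hzX
    rw [← pow_mul]
    exact le_self_pow₀ (by linarith) (by omega)
  have hZX : 4 * Z ≤ X ^ ((l : ℝ) + 1) := by
    rw [Real.rpow_add_one hX0.ne', Real.rpow_natCast, hZ, mul_pow]
    calc 4 * (150 ^ l * (z : ℝ) ^ l) = (z : ℝ) ^ l * (4 * 150 ^ l) := by ring
      _ ≤ X ^ l * X := mul_le_mul (pow_le_pow_left₀ hz0.le hzX' l) hX2 (by positivity) (by positivity)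
  have hsX : 0 < √X := Real.sqrt_pos.2 hX0
  have hsX1 : 1 ≤ √X := by rw [Real.one_le_sqrt]; exact hX1
  have hMZ : (((p * q) ^ l : ℕ) : ℝ) ≤ Z ^ 2 := by
    rw [hZ]
    push_cast
    rw [← pow_mul, mul_comm l 2, pow_mul]
    apply pow_le_pow_left₀ (by positivity)
    have : (p : ℝ) * q ≤ z ^ 2 := by exact_mod_cast hPle
    nlinarith
  have hBB : 4 * Z * (3 * Z / √X) * √X ≤ 12 * 150 ^ (2 * l) * 4 ^ l * ((p * q : ℕ) : ℝ) ^ l := by
    have e1 : 4 * Z * (3 * Z / √X) * √X = 12 * Z ^ 2 := by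
      field_simp
      ring
    rw [e1]
    have e2 : Z ^ 2 = 150 ^ (2 * l) * ((z : ℝ) ^ 2) ^ l := by
      rw [hZ, mul_pow, mul_pow, ← pow_mul, ← pow_mul, ← pow_mul, mul_comm l 2]
    have e3 : ((z : ℝ) ^ 2) ^ l ≤ 4 ^ l * ((p * q : ℕ) : ℝ) ^ l := by
      rw [← mul_pow]
      apply pow_le_pow_left₀ (by positivity)
      linarith
    rw [e2]
    have : (0 : ℝ) < 150 ^ (2 * l) := by positivity
    nlinarith
  -- the cover
  obtain ⟨N4, hN4⟩ : ∃ N4 : Finset ℤ, N4 = {1, -1, 4, -4} := ⟨_, rfl⟩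
  obtain ⟨Fn, hFn⟩ : ∃ Fn : ℤ × Bool → Finset ℤ, Fn = fun c => S.filter (fun D => QR p D ∧ QR q D ∧
      (decide (0 ≤ D) = c.2) ∧ ∃ x y : ℤ, IsCoprime x y ∧ 1 ≤ y ∧
      x ^ 2 + (-D) * y ^ 2 = ((p * q : ℕ) : ℤ) ^ l * c.1 ∧ |(x : ℝ)| ≤ 4 * Z ∧
      |(y : ℝ)| ≤ 3 * Z / √X) := ⟨_, rfl⟩
  have hcov : S.filter (fun D => QR p D ∧ QR q D ∧ Coll l Z D p q) ⊆
      (N4 ×ˢ (Finset.univ : Finset Bool)).biUnion Fn := by
    intro D hD
    rw [mem_filter] at hD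
    obtain ⟨hDS, h1, h2, h3⟩ := hD
    obtain ⟨n, hn, x, y, hxy⟩ := coll_rep hZ0.le hX0 (hS D hDS).1 hMZ h3
    rw [mem_biUnion]
    refine ⟨(n, decide (0 ≤ D)), ?_, ?_⟩
    · rw [mem_product, hN4]
      simp only [mem_insert, mem_singleton]
      exact ⟨hn, mem_univ _⟩
    · rw [hFn]
      simp only
      rw [mem_filter]
      exact ⟨hDS, h1, h2, rfl, x, y, hxy⟩
  have hone : ∀ c ∈ (N4 ×ˢ (Finset.univ : Finset Bool)), (Fn c).card ≤ ⌊C * X ^ ε * ((z : ℝ) ^ 2) ^ k⌋₊ := by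
    intro c _
    apply Nat.le_floor
    have hcard : ((Fn c).image (fun D => -D)).card = (Fn c).card :=
      card_image_of_injective _ neg_injective
    rw [← hcard]
    have hm : ∀ Δ ∈ (Fn c).image (fun D => -D), ∃ D ∈ Fn c, Δ = -D := by
      intro Δ hΔ
      rw [mem_image] at hΔ
      obtain ⟨D, hD, rfl⟩ := hΔ
      exact ⟨D, hD, rfl⟩
    have h1 := hmain X ((le_max_left _ _).trans hX) p q hpp hqp' (Ne.symm hqp) (hne2 p hp2) (hne2 q hq2)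
      (hPk.trans hzX) (hXz.trans (pow_le_pow_left₀ (by positivity) hPge k)) (4 * Z) (3 * Z / √X)
      (by positivity) (by positivity) hBB hZX
      (by
        refine le_trans ?_ hZX
        rw [div_le_iff₀ hsX]
        nlinarith) c.1 ((Fn c).image (fun D => -D)) ?_ ?_
    · refine h1.trans ?_
      exact mul_le_mul_of_nonneg_left hPk (by positivity)
    · intro Δ hΔ Δ' hΔ'
      obtain ⟨D, hD, rfl⟩ := hm Δ hΔ
      obtain ⟨D', hD', rfl⟩ := hm Δ' hΔ'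
      rw [hFn] at hD hD'
      simp only at hD hD'
      rw [mem_filter] at hD hD'
      have e1 := hS D hD.1
      have e2 := hS D' hD'.1
      have e3 : decide (0 ≤ D) = decide (0 ≤ D') := by rw [hD.2.2.2.1, hD'.2.2.2.1]
      rw [decide_eq_decide] at e3
      push_cast
      by_cases h0 : 0 ≤ D
      · have h0' := e3.1 h0
        have f1 : (0 : ℝ) ≤ D := by exact_mod_cast h0
        have f2 : (0 : ℝ) ≤ D' := by exact_mod_cast h0'
        rw [abs_of_nonneg f1] at e1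
        rw [abs_of_nonneg f2] at e2
        rw [abs_le]
        constructor <;> linarith [e1.1, e1.2, e2.1, e2.2]
      · have h0' : ¬ 0 ≤ D' := fun h => h0 (e3.2 h)
        have f1 : (D : ℝ) < 0 := by exact_mod_cast (not_le.1 h0)
        have f2 : (D' : ℝ) < 0 := by exact_mod_cast (not_le.1 h0')
        rw [abs_of_neg f1] at e1
        rw [abs_of_neg f2] at e2
        rw [abs_le]
        constructor <;> linarith [e1.1, e1.2, e2.1, e2.2]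
    · intro Δ hΔ
      obtain ⟨D, hD, rfl⟩ := hm Δ hΔ
      rw [hFn] at hD
      simp only at hD
      rw [mem_filter] at hD
      obtain ⟨-, g1, g2, -, x, y, g3⟩ := hD
      refine ⟨?_, ?_, x, y, g3⟩
      · rw [dvd_neg]
        exact qr_ndvd hpp g1
      · rw [dvd_neg]
        exact qr_ndvd hqp' g2
  have h1 : (S.filter (fun D => QR p D ∧ QR q D ∧ Coll l Z D p q)).card ≤
      (4 * 2) * ⌊C * X ^ ε * ((z : ℝ) ^ 2) ^ k⌋₊ := by
    refine (card_le_card hcov).trans ?_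
    refine (card_biUnion_le_card_mul _ _ _ hone).trans ?_
    apply Nat.mul_le_mul_right
    rw [card_product, card_univ, Fintype.card_bool]
    apply Nat.mul_le_mul_right
    rw [hN4]
    exact card_le_four
  have h2 : ((S.filter (fun D => QR p D ∧ QR q D ∧ Coll l Z D p q)).card : ℝ) ≤
      (4 * 2) * (⌊C * X ^ ε * ((z : ℝ) ^ 2) ^ k⌋₊ : ℝ) := by exact_mod_cast h1
  have h3 : (⌊C * X ^ ε * ((z : ℝ) ^ 2) ^ k⌋₊ : ℝ) ≤ C * X ^ ε * ((z : ℝ) ^ 2) ^ k :=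
    Nat.floor_le (by positivity)
  linarith

/-- the number of collisions on average -/
theorem sumE (l k : ℕ) (hk : 1 ≤ k) (hkl : k ≤ l) (ε : ℝ) (hε : 0 < ε) : ∃ C X0 : ℝ, 0 < C ∧ 1 ≤ X0 ∧
    ∀ X : ℝ, X0 ≤ X → ∀ z : ℕ, 5 ≤ z → ((z : ℝ) ^ 2) ^ k ≤ X →
    X ^ (1 - (k : ℝ) ^ 2 / (4 * (l : ℝ) ^ 2)) ≤ ((z : ℝ) ^ 2 / 4) ^ k →
    ∀ S : Finset ℤ, (∀ D ∈ S, X ≤ |(D : ℝ)| ∧ |(D : ℝ)| ≤ 2 * X) →
    ∑ D ∈ S, (EC l ((150 * (z : ℝ)) ^ l) D ((Qz z).filter (fun p => QR p D)) : ℝ) ≤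
      C * X ^ ε * ((z : ℝ) ^ 2) ^ k * ((Qz z).card : ℝ) ^ 2 := by
  obtain ⟨C, X0, hC0, hX01, hmain⟩ := pair l k hk hkl ε hε
  refine ⟨C, X0, hC0, hX01, ?_⟩
  intro X hX z hz hzX hXz S hS
  obtain ⟨Z, hZ⟩ : ∃ Z : ℝ, Z = (150 * (z : ℝ)) ^ l := ⟨_, rfl⟩
  have hmain' := hmain X hX z hz hzX hXz
  rw [← hZ] at hmain' ⊢
  have e1 : ∀ D ∈ S, (EC l Z D ((Qz z).filter (fun p => QR p D)) : ℝ) ≤
      ∑ x ∈ Qz z ×ˢ Qz z, if (x.2 ≠ x.1 ∧ QR x.1 D ∧ QR x.2 D ∧ Coll l Z D x.1 x.2) then (1 : ℝ) else 0 := by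
    intro D _
    have e2 : EC l Z D ((Qz z).filter (fun p => QR p D)) ≤
        ((Qz z ×ˢ Qz z).filter (fun x => x.2 ≠ x.1 ∧ QR x.1 D ∧ QR x.2 D ∧ Coll l Z D x.1 x.2)).card := by
      unfold EC
      apply card_le_card
      intro x hx
      rw [mem_filter, mem_product, mem_filter, mem_filter] at hx
      rw [mem_filter, mem_product]
      exact ⟨⟨hx.1.1.1, hx.1.2.1⟩, hx.2.1, hx.1.1.2, hx.1.2.2, hx.2.2⟩
    rw [← Finset.sum_filter, sum_const, nsmul_eq_mul, mul_one]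
    exact_mod_cast e2
  refine (Finset.sum_le_sum e1).trans ?_
  rw [Finset.sum_comm]
  have hone : ∀ x ∈ Qz z ×ˢ Qz z, (∑ D ∈ S, if (x.2 ≠ x.1 ∧ QR x.1 D ∧ QR x.2 D ∧ Coll l Z D x.1 x.2)
      then (1 : ℝ) else 0) ≤ C * X ^ ε * ((z : ℝ) ^ 2) ^ k := by
    intro x hx
    rw [mem_product] at hx
    rw [← Finset.sum_filter, sum_const, nsmul_eq_mul, mul_one]
    by_cases hne : x.2 ≠ x.1
    · refine le_trans ?_ (hmain' x.1 hx.1 x.2 hx.2 hne S hS)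
      have : (S.filter (fun D => x.2 ≠ x.1 ∧ QR x.1 D ∧ QR x.2 D ∧ Coll l Z D x.1 x.2)).card ≤
          (S.filter (fun D => QR x.1 D ∧ QR x.2 D ∧ Coll l Z D x.1 x.2)).card := by
        apply card_le_card
        intro D hD
        rw [mem_filter] at hD ⊢
        exact ⟨hD.1, hD.2.2⟩
      exact_mod_cast this
    · have : S.filter (fun D => x.2 ≠ x.1 ∧ QR x.1 D ∧ QR x.2 D ∧ Coll l Z D x.1 x.2) = ∅ := by
        apply filter_eq_empty_iff.2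
        intro D _ h
        exact hne h.1
      rw [this, card_empty, Nat.cast_zero]
      have hX1 : 0 < X := by linarith
      positivity
  refine (Finset.sum_le_sum hone).trans (le_of_eq ?_)
  rw [sum_const, nsmul_eq_mul, card_product]
  push_cast
  ring

end Pool.Agent.U916.GT
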