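import Mathlib

/-!
# A Bezout identity with a bounded right side
-/

set_option autoImplicit false

namespace Pool.Agent.U916.GT

open Polynomial

theorem syl_le (A B : ℤ[X]) (a b : ℕ) {H : ℝ} (hH : 1 ≤ H) (hA : ∀ k, |(A.coeff k : ℝ)| ≤ H)
    (hB : ∀ k, |(B.coeff k : ℝ)| ≤ H) :
    |((resultant A B a b : ℤ) : ℝ)| ≤ ((a + b).factorial : ℝ) * H ^ (a + b) := by
  rw [resultant, Matrix.det_apply']
  push_cast
  refine (Finset.abs_sum_le_sum_abs _ _).trans ?_
  have hent : ∀ i j, |((sylvester A B a b i j : ℤ) : ℝ)| ≤ H := by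
    intro i j
    rw [sylvester, Matrix.of_apply]
    refine Fin.addCases (fun j₁ => ?_) (fun j₁ => ?_) j
    · rw [Fin.addCases_left]
      split_ifs
      · exact hB _
      · simp only [Int.cast_zero, abs_zero]; linarith
    · rw [Fin.addCases_right]
      split_ifs
      · exact hA _
      · simp only [Int.cast_zero, abs_zero]; linarith
  have hterm : ∀ p ∈ (Finset.univ : Finset (Equiv.Perm (Fin (a + b)))),
      |((Equiv.Perm.sign p : ℤ) : ℝ) * ∏ i, ((sylvester A B a b (p i) i : ℤ) : ℝ)| ≤ H ^ (a + b) := by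
    intro p _
    rw [abs_mul, Finset.abs_prod]
    have h1 : |((Equiv.Perm.sign p : ℤ) : ℝ)| = 1 := by
      rcases Int.units_eq_one_or (Equiv.Perm.sign p) with h | h <;> simp [h]
    rw [h1, one_mul]
    refine (Finset.prod_le_prod (fun i _ => abs_nonneg _) (fun i _ => hent (p i) i)).trans ?_
    rw [Finset.prod_const, Finset.card_univ, Fintype.card_fin]
  refine (Finset.sum_le_sum hterm).trans ?_
  rw [Finset.sum_const, Finset.card_univ, Fintype.card_perm, Fintype.card_fin, nsmul_eq_mul]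

/-- a Bezout identity -/
theorem bez (n : ℕ) (hn : 1 ≤ n) (A B : ℤ[X]) {H : ℝ} (hH : 1 ≤ H) (hAd : A.natDegree ≤ n)
    (hBd : B.natDegree ≤ n) (hA : ∀ k, |(A.coeff k : ℝ)| ≤ H) (hB : ∀ k, |(B.coeff k : ℝ)| ≤ H)
    (hcop : IsCoprime (A.map (Int.castRingHom ℚ)) (B.map (Int.castRingHom ℚ))) :
    ∃ (U W : ℤ[X]) (R : ℤ), R ≠ 0 ∧ A * U + B * W = C R ∧
      |(R : ℝ)| ≤ ((2 * n).factorial : ℝ) * H ^ (2 * n) := by
  have hinj : Function.Injective (Int.castRingHom ℚ) := Int.cast_injective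
  have hbig : ∀ c : ℕ, c ≤ 2 * n → (c.factorial : ℝ) * H ^ c ≤ ((2 * n).factorial : ℝ) * H ^ (2 * n) := by
    intro c hc
    have h1 : (c.factorial : ℝ) ≤ ((2 * n).factorial : ℝ) := by
      exact_mod_cast Nat.factorial_le hc
    have h2 : H ^ c ≤ H ^ (2 * n) := pow_le_pow_right₀ hH hc
    exact mul_le_mul h1 h2 (by positivity) (by positivity)
  by_cases hdeg : A.natDegree ≠ 0 ∨ B.natDegree ≠ 0
  · obtain ⟨U, W, -, -, h⟩ := exists_mul_add_mul_eq_C_resultant A B le_rfl le_rfl hdeg
    refine ⟨U, W, resultant A B, ?_, h, ?_⟩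
    · intro h0
      have h1 : resultant (A.map (Int.castRingHom ℚ)) (B.map (Int.castRingHom ℚ)) = 0 := by
        rw [natDegree_map_eq_of_injective hinj, natDegree_map_eq_of_injective hinj,
          resultant_map_map, h0, map_zero]
      rw [resultant_eq_zero_iff] at h1
      exact h1.2 hcop
    · exact (syl_le A B _ _ hH hA hB).trans (hbig _ (by omega))
  · push Not at hdeg
    obtain ⟨hA0, hB0⟩ := hdeg
    have h1 : (1 : ℝ) ≤ ((2 * n).factorial : ℝ) * H ^ (2 * n - 1) := by
      have e1 : (1 : ℝ) ≤ ((2 * n).factorial : ℝ) := by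
        exact_mod_cast Nat.factorial_pos _
      have e2 : (1 : ℝ) ≤ H ^ (2 * n - 1) := one_le_pow₀ hH
      nlinarith
    have h2 : H ≤ ((2 * n).factorial : ℝ) * H ^ (2 * n) := by
      have e1 : H ^ (2 * n) = H ^ (2 * n - 1) * H := by
        rw [← pow_succ]
        congr 1
        omega
      rw [e1]
      nlinarith
    rw [natDegree_eq_zero] at hA0 hB0
    obtain ⟨a, ha⟩ := hA0
    obtain ⟨b, hb⟩ := hB0
    by_cases ha0 : a = 0
    · by_cases hb0 : b = 0
      · exfalso
        rw [← ha, ← hb, ha0, hb0] at hcop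
        simp only [map_zero, Polynomial.map_zero] at hcop
        exact not_isCoprime_zero_zero hcop
      · refine ⟨0, 1, b, hb0, by rw [← hb]; ring, ?_⟩
        have := hB 0
        rw [← hb, coeff_C_zero] at this
        linarith
    · refine ⟨1, 0, a, ha0, by rw [← ha]; ring, ?_⟩
      have := hA 0
      rw [← ha, coeff_C_zero] at this
      linarith

end Pool.Agent.U916.GT
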