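import Pool.Agent.U916.GT.Cls

/-!
# Few discriminants for a given norm
-/

set_option autoImplicit false

namespace Pool.Agent.U916.GT

lemma cop_of {p q : ℕ} (hp : p.Prime) (hq : q.Prime) {z : ℤ} (h1 : ¬ (p : ℤ) ∣ z) (h2 : ¬ (q : ℤ) ∣ z) :
    IsCoprime z ((p * q : ℕ) : ℤ) := by
  push_cast
  exact IsCoprime.mul_right ((Nat.prime_iff_prime_int.1 hp).coprime_iff_not_dvd.2 h1).symm
    ((Nat.prime_iff_prime_int.1 hq).coprime_iff_not_dvd.2 h2).symm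

lemma y_cop {p : ℕ} (hp : p.Prime) {x y d N : ℤ} (hxy : IsCoprime x y) (hN : (p : ℤ) ∣ N)
    (h : x ^ 2 + d * y ^ 2 = N) : ¬ (p : ℤ) ∣ y := by
  intro hy
  have hpI := Nat.prime_iff_prime_int.1 hp
  have hx : (p : ℤ) ∣ x ^ 2 := by
    have : x ^ 2 = N - d * y ^ 2 := by linear_combination h
    rw [this]
    exact dvd_sub hN (Dvd.dvd.mul_left (hy.trans (dvd_pow_self y two_ne_zero)) _)
  exact hpI.not_isUnit (hxy.isUnit_of_dvd' (hpI.dvd_of_dvd_pow hx) hy)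

theorem cnt (l k : ℕ) (hk : 1 ≤ k) (hkl : k ≤ l) (Kc b0 : ℝ) (hKc : 1 ≤ Kc) (hb0 : 0 ≤ b0) (ε : ℝ)
    (hε : 0 < ε) : ∃ C X0 : ℝ, 0 < C ∧ 1 ≤ X0 ∧ ∀ X : ℝ, X0 ≤ X → ∀ p q : ℕ, p.Prime → q.Prime →
    p ≠ q → p ≠ 2 → q ≠ 2 → ((p * q : ℕ) : ℝ) ^ k ≤ X →
    X ^ (1 - (k : ℝ) ^ 2 / (4 * (l : ℝ) ^ 2)) ≤ ((p * q : ℕ) : ℝ) ^ k →
    ∀ Bx By : ℝ, 0 ≤ Bx → 0 ≤ By → Bx * By * √X ≤ Kc * ((p * q : ℕ) : ℝ) ^ l → Bx ≤ X ^ b0 →
    By ≤ X ^ b0 → ∀ (n : ℤ) (S : Finset ℤ), (∀ Δ ∈ S, ∀ Δ' ∈ S, |(Δ : ℝ) - Δ'| ≤ X) →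
    (∀ Δ ∈ S, ¬ (p : ℤ) ∣ Δ ∧ ¬ (q : ℤ) ∣ Δ ∧ ∃ x y : ℤ, IsCoprime x y ∧ 1 ≤ y ∧
      x ^ 2 + Δ * y ^ 2 = ((p * q : ℕ) : ℤ) ^ l * n ∧ |(x : ℝ)| ≤ Bx ∧ |(y : ℝ)| ≤ By) →
    (S.card : ℝ) ≤ C * X ^ ε * ((p * q : ℕ) : ℝ) ^ k := by
  classical
  obtain ⟨C, X0, hC0, hX01, hmain⟩ := cls l k hk hkl Kc b0 hKc hb0 ε hε
  refine ⟨4 * C, X0, by positivity, hX01, ?_⟩
  intro X hX p q hp hq hpq hp2 hq2 hPX hXP Bx By hBx hBy hB hBx2 hBy2 n S hdiff hS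
  have hX1 : 1 ≤ X := hX01.trans hX
  have hX0 : 0 < X := by linarith
  obtain ⟨P, hP⟩ : ∃ P : ℕ, P = p * q := ⟨_, rfl⟩
  have hpI := Nat.prime_iff_prime_int.1 hp
  have hqI := Nat.prime_iff_prime_int.1 hq
  have hcopP : ∀ z : ℤ, ¬ (p : ℤ) ∣ z → ¬ (q : ℤ) ∣ z → IsCoprime z (P : ℤ) := by
    intro z h1 h2
    rw [hP]
    exact cop_of hp hq h1 h2
  have hpP : (p : ℤ) ∣ P := by rw [hP]; exact_mod_cast Dvd.intro _ rfl
  have hqP : (q : ℤ) ∣ P := by rw [hP]; exact_mod_cast Dvd.intro_left _ rfl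
  have hP1 : 1 ≤ P := by
    rw [hP]
    exact Nat.mul_pos hp.pos hq.pos
  rw [← hP] at hPX hXP hB hS ⊢
  have hl1 : l ≠ 0 := by omega
  have hPl : (P : ℤ) ∣ (P : ℤ) ^ l * n := Dvd.dvd.mul_right (dvd_pow_self _ hl1) _
  obtain ⟨R, hR⟩ : ∃ R : ℕ, R = P ^ k := ⟨_, rfl⟩
  have hR0 : 0 < R := by rw [hR]; exact pow_pos hP1 k
  have hRR : (R : ℝ) = (P : ℝ) ^ k := by rw [hR]; push_cast; rfl
  have hRI : (R : ℤ) = (P : ℤ) ^ k := by rw [hR]; push_cast; rfl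
  -- the choice of the representations
  have hrep : ∀ d ∈ S, ∃ x y s : ℤ, IsCoprime x y ∧ 1 ≤ y ∧ x ^ 2 + d * y ^ 2 = (P : ℤ) ^ l * n ∧
      |(x : ℝ)| ≤ Bx ∧ |(y : ℝ)| ≤ By ∧ (P : ℤ) ∣ x - s * y ∧ IsCoprime y (P : ℤ) := by
    intro d hd
    obtain ⟨h1, h2, x, y, h3, h4, h5, h6, h7⟩ := hS d hd
    have hyP : IsCoprime y (P : ℤ) := hcopP y (y_cop hp h3 (hpP.trans hPl) h5) (y_cop hq h3 (hqP.trans hPl) h5)
    obtain ⟨v, w, hvw⟩ := hyP
    refine ⟨x, y, x * v, h3, h4, h5, h6, h7, ?_, ⟨v, w, hvw⟩⟩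
    exact ⟨x * w, by linear_combination -x * hvw⟩
  choose! x y s hxys using hrep
  have hs2 : ∀ d ∈ S, (P : ℤ) ∣ s d ^ 2 + d := by
    intro d hd
    obtain ⟨h3, h4, h5, h6, h7, h8, h9⟩ := hxys d hd
    have e1 : (P : ℤ) ∣ (s d ^ 2 + d) * y d ^ 2 := by
      have e2 : (s d ^ 2 + d) * y d ^ 2 = (P : ℤ) ^ l * n - (x d - s d * y d) * (x d + s d * y d) := by
        linear_combination h5
      rw [e2]
      exact dvd_sub hPl (Dvd.dvd.mul_right h8 _)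
    exact (h9.symm.pow_right).dvd_of_dvd_mul_right e1
  -- a base point in each class
  obtain ⟨base, hbase⟩ : ∃ base : ℤ → ℤ, ∀ c : ℤ, (∃ d ∈ S, d % R = c) → base c ∈ S ∧ base c % R = c := by
    refine ⟨fun c => if h : ∃ d ∈ S, d % R = c then h.choose else 0, ?_⟩
    intro c hc
    simp only [dif_pos hc]
    exact hc.choose_spec
  have hPR : (P : ℤ) ∣ (R : ℤ) := by rw [hRI]; exact dvd_pow_self _ (by omega)
  have hpm : ∀ r : ℕ, r.Prime → (r : ℤ) ∣ P → ∀ d ∈ S, (r : ℤ) ∣ s d - s (base (d % R)) ∨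
      (r : ℤ) ∣ s d + s (base (d % R)) := by
    intro r hr hrP d hd
    obtain ⟨h1, h2⟩ := hbase (d % R) ⟨d, hd, rfl⟩
    have h3 : (R : ℤ) ∣ d - base (d % R) :=
      Int.ModEq.dvd (show base (d % R) % (R : ℤ) = d % (R : ℤ) from h2)
    have h4 : (r : ℤ) ∣ (s d - s (base (d % R))) * (s d + s (base (d % R))) := by
      have e1 : (s d - s (base (d % R))) * (s d + s (base (d % R))) =
          (s d ^ 2 + d) - (s (base (d % R)) ^ 2 + base (d % R)) - (d - base (d % R)) := by ring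
      rw [e1]
      exact dvd_sub (dvd_sub (hrP.trans (hs2 d hd)) (hrP.trans (hs2 _ h1))) ((hrP.trans hPR).trans h3)
    exact (Nat.prime_iff_prime_int.1 hr).dvd_or_dvd h4
  -- the classes
  obtain ⟨cl, hcl⟩ : ∃ cl : ℤ → (ℕ × Bool) × Bool, cl = fun d : ℤ => ((((d % (R : ℤ)).toNat),
      decide ((p : ℤ) ∣ s d - s (base (d % R)))), decide ((q : ℤ) ∣ s d - s (base (d % R)))) := ⟨_, rfl⟩
  have hcov : S ⊆ ((Finset.range R ×ˢ (Finset.univ : Finset Bool)) ×ˢ (Finset.univ : Finset Bool)).biUnion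
      (fun c => S.filter (fun d => cl d = c)) := by
    intro d hd
    have g1 : 0 ≤ d % (R : ℤ) := Int.emod_nonneg _ (by exact_mod_cast hR0.ne')
    have g2 : d % (R : ℤ) < R := Int.emod_lt_of_pos _ (by exact_mod_cast hR0)
    rw [Finset.mem_biUnion]
    refine ⟨cl d, ?_, Finset.mem_filter.2 ⟨hd, rfl⟩⟩
    rw [Finset.mem_product, Finset.mem_product, Finset.mem_range, hcl]
    refine ⟨⟨?_, Finset.mem_univ _⟩, Finset.mem_univ _⟩
    simp only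
    omega
  have hclass : ∀ c ∈ ((Finset.range R ×ˢ (Finset.univ : Finset Bool)) ×ˢ (Finset.univ : Finset Bool)),
      (S.filter (fun d => cl d = c)).card ≤ ⌊C * X ^ ε⌋₊ := by
    intro c _
    apply Nat.le_floor
    obtain ⟨F, hF⟩ : ∃ F : Finset ℤ, F = S.filter (fun d => cl d = c) := ⟨_, rfl⟩
    rw [← hF]
    rcases F.eq_empty_or_nonempty with h0 | ⟨d₀, hd₀⟩
    · rw [h0]
      simp only [Finset.card_empty, Nat.cast_zero]
      positivity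
    have hFm : ∀ d ∈ F, d ∈ S ∧ cl d = cl d₀ := by
      intro d hd
      rw [hF, Finset.mem_filter] at hd hd₀
      exact ⟨hd.1, by rw [hd.2, hd₀.2]⟩
    have hd₀S := (hFm d₀ hd₀).1
    have hmod : ∀ d ∈ F, d % (R : ℤ) = d₀ % (R : ℤ) := by
      intro d hd
      have e1 := (hFm d hd).2
      rw [hcl] at e1
      simp only [Prod.mk.injEq] at e1
      have g1 : 0 ≤ d % (R : ℤ) := Int.emod_nonneg _ (by exact_mod_cast hR0.ne')
      have g2 : 0 ≤ d₀ % (R : ℤ) := Int.emod_nonneg _ (by exact_mod_cast hR0.ne')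
      have := e1.1.1
      omega
    have hss : ∀ d ∈ F, (P : ℤ) ∣ s d - s d₀ := by
      intro d hd
      have e1 := (hFm d hd).2
      rw [hcl] at e1
      simp only [Prod.mk.injEq, decide_eq_decide] at e1
      rw [hmod d hd] at e1
      have hbs : base (d % R) = base (d₀ % R) := by rw [hmod d hd]
      obtain ⟨b, hb⟩ : ∃ b, b = s (base (d₀ % R)) := ⟨_, rfl⟩
      rw [← hb] at e1
      have key : ∀ r : ℕ, r.Prime → (r : ℤ) ∣ P → ((r : ℤ) ∣ s d - b ↔ (r : ℤ) ∣ s d₀ - b) →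
          (r : ℤ) ∣ s d - s d₀ := by
        intro r hr hrP hiff
        have f1 := hpm r hr hrP d (hFm d hd).1
        have f2 := hpm r hr hrP d₀ hd₀S
        rw [hbs, ← hb] at f1
        rw [← hb] at f2
        by_cases h : (r : ℤ) ∣ s d - b
        · have h' := hiff.1 h
          have : s d - s d₀ = (s d - b) - (s d₀ - b) := by ring
          rw [this]
          exact dvd_sub h h'
        · have h' : ¬ (r : ℤ) ∣ s d₀ - b := fun hh => h (hiff.2 hh)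
          have g1 := f1.resolve_left h
          have g2 := f2.resolve_left h'
          have : s d - s d₀ = (s d + b) - (s d₀ + b) := by ring
          rw [this]
          exact dvd_sub g1 g2
      have k1 := key p hp hpP e1.1.2
      have k2 := key q hq hqP e1.2
      have hpqc : IsCoprime (p : ℤ) (q : ℤ) := by
        rw [Nat.isCoprime_iff_coprime]
        exact (Nat.coprime_primes hp hq).2 hpq
      have := hpqc.mul_dvd k1 k2
      rw [hP]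
      push_cast
      exact this
    obtain ⟨σ, hσd⟩ : ∃ σ : ℤ → ℤ, ∀ d ∈ F, d = d₀ + (P : ℤ) ^ k * σ d := by
      refine ⟨fun d => (d - d₀) / R, ?_⟩
      intro d hd
      have e2 : (R : ℤ) ∣ d - d₀ := Int.ModEq.dvd (show d₀ % (R : ℤ) = d % (R : ℤ) from (hmod d hd).symm)
      simp only
      rw [← hRI, Int.mul_ediv_cancel' e2]
      ring
    obtain ⟨T, hT⟩ : ∃ T : Finset ℤ, T = F.image σ := ⟨_, rfl⟩
    have hTc : T.card = F.card := by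
      rw [hT]
      apply Finset.card_image_of_injOn
      intro a ha b hb hab
      have e1 := hσd a ha
      have e2 := hσd b hb
      rw [e1, e2, hab]
    rw [← hTc]
    have hTm : ∀ t ∈ T, d₀ + (P : ℤ) ^ k * t ∈ F := by
      intro t ht
      rw [hT, Finset.mem_image] at ht
      obtain ⟨d, hd, rfl⟩ := ht
      rw [← hσd d hd]
      exact hd
    have hsP : ¬ (p : ℤ) ∣ 2 * s d₀ := by
      intro h
      rcases hpI.dvd_or_dvd h with h | h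
      · have : p ∣ 2 := by exact_mod_cast h
        exact hp2 ((Nat.prime_dvd_prime_iff_eq hp Nat.prime_two).1 this)
      · apply (hS d₀ hd₀S).1
        have e2 : d₀ = (s d₀ ^ 2 + d₀) - s d₀ ^ 2 := by ring
        rw [e2]
        exact dvd_sub (hpP.trans (hs2 d₀ hd₀S)) (h.trans (dvd_pow_self _ two_ne_zero))
    have hsQ : ¬ (q : ℤ) ∣ 2 * s d₀ := by
      intro h
      rcases hqI.dvd_or_dvd h with h | h
      · have : q ∣ 2 := by exact_mod_cast h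
        exact hq2 ((Nat.prime_dvd_prime_iff_eq hq Nat.prime_two).1 this)
      · apply (hS d₀ hd₀S).2.1
        have e2 : d₀ = (s d₀ ^ 2 + d₀) - s d₀ ^ 2 := by ring
        rw [e2]
        exact dvd_sub (hqP.trans (hs2 d₀ hd₀S)) (h.trans (dvd_pow_self _ two_ne_zero))
    have h2s : IsCoprime (2 * s d₀) (P : ℤ) := hcopP _ hsP hsQ
    obtain ⟨u, hu⟩ : ∃ u : ℤ, (P : ℤ) ∣ 1 + 2 * s d₀ * u := by
      obtain ⟨a, b, hab⟩ := h2s
      exact ⟨-a, b, by linear_combination -hab⟩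
    refine hmain X hX P hP1 hPX Bx By hBx hBy hB hBx2 hBy2 d₀ (s d₀) u n (hs2 d₀ hd₀S) hu T
      (fun t => x (d₀ + (P : ℤ) ^ k * t)) (fun t => y (d₀ + (P : ℤ) ^ k * t)) ?_ ?_ ?_ ?_ ?_ ?_ ?_
    · intro t ht
      exact (hxys _ (hFm _ (hTm t ht)).1).2.2.1
    · intro t ht
      exact (hxys _ (hFm _ (hTm t ht)).1).1
    · intro t ht
      exact (hxys _ (hFm _ (hTm t ht)).1).2.1
    · intro t ht
      exact h2s.mul_left (hxys _ (hFm _ (hTm t ht)).1).2.2.2.2.2.2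
    · intro t ht
      have e1 := hss _ (hTm t ht)
      have e3 := (hxys _ (hFm _ (hTm t ht)).1).2.2.2.2.2.1
      have e4 : x (d₀ + (P : ℤ) ^ k * t) - s d₀ * y (d₀ + (P : ℤ) ^ k * t) =
          (x (d₀ + (P : ℤ) ^ k * t) - s (d₀ + (P : ℤ) ^ k * t) * y (d₀ + (P : ℤ) ^ k * t)) +
          (s (d₀ + (P : ℤ) ^ k * t) - s d₀) * y (d₀ + (P : ℤ) ^ k * t) := by ring
      rw [e4]
      exact dvd_add e3 (Dvd.dvd.mul_right e1 _)
    · intro t ht
      exact ⟨(hxys _ (hFm _ (hTm t ht)).1).2.2.2.1, (hxys _ (hFm _ (hTm t ht)).1).2.2.2.2.1⟩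
    · intro t ht
      have e1 := hdiff _ (hFm _ (hTm t ht)).1 _ hd₀S
      push_cast at e1
      have e2 : (d₀ : ℝ) + (P : ℝ) ^ k * t - d₀ = (P : ℝ) ^ k * t := by ring
      have hPk0 : (0 : ℝ) < (P : ℝ) ^ k := by
        have : (0 : ℝ) < P := by exact_mod_cast hP1
        positivity
      rw [e2, abs_mul, abs_of_pos hPk0] at e1
      obtain ⟨δ, hδ⟩ : ∃ δ : ℝ, δ = (k : ℝ) ^ 2 / (4 * (l : ℝ) ^ 2) := ⟨_, rfl⟩
      rw [← hδ] at hXP ⊢
      have e4 : X ^ (1 - δ) * X ^ δ = X := by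
        rw [← Real.rpow_add hX0]
        have : 1 - δ + δ = 1 := by ring
        rw [this, Real.rpow_one]
      have e5 : X ^ (1 - δ) * |(t : ℝ)| ≤ X ^ (1 - δ) * X ^ δ := by
        rw [e4]
        exact (mul_le_mul_of_nonneg_right hXP (abs_nonneg _)).trans e1
      exact le_of_mul_le_mul_left e5 (Real.rpow_pos_of_pos hX0 _)
  have h1 : S.card ≤ ((R * 2) * 2) * ⌊C * X ^ ε⌋₊ := by
    refine (Finset.card_le_card hcov).trans ?_
    refine (Finset.card_biUnion_le_card_mul _ _ _ hclass).trans ?_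
    rw [Finset.card_product, Finset.card_product, Finset.card_range, Finset.card_univ, Fintype.card_bool]
  have h2 : (S.card : ℝ) ≤ (((R : ℝ) * 2) * 2) * (⌊C * X ^ ε⌋₊ : ℝ) := by exact_mod_cast h1
  have h3 : (⌊C * X ^ ε⌋₊ : ℝ) ≤ C * X ^ ε := Nat.floor_le (by positivity)
  calc (S.card : ℝ) ≤ (((R : ℝ) * 2) * 2) * (⌊C * X ^ ε⌋₊ : ℝ) := h2
    _ ≤ (((R : ℝ) * 2) * 2) * (C * X ^ ε) := mul_le_mul_of_nonneg_left h3 (by positivity)
    _ = 4 * C * X ^ ε * (P : ℝ) ^ k := by rw [hRR]; ring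

end Pool.Agent.U916.GT
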