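import Pool.Agent.U916.GT.Dyad

/-!
# All discriminants
-/

set_option autoImplicit false

namespace Pool.Agent.U916.GT

open NumberField Finset Pool.Agent.Y159.QS
open scoped Classical

/-- all discriminants -/
theorem full (l k r : ℕ) (hr : 1 ≤ r) (hk : 1 ≤ k) (hkl : k ≤ l) (hrk : 3 * r ≤ 2 * k) (ε : ℝ)
    (hε : 0 < ε) : ∃ C : ℝ, 0 < C ∧ ∀ X : ℝ, 1 ≤ X →
    ∀ (S : Finset ℤ) (K : ℤ → Type) [∀ D, Field (K D)] [∀ D, NumberField (K D)],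
    (∀ D ∈ S, |(D : ℝ)| ≤ X ∧ Module.finrank ℚ (K D) = 2 ∧ NumberField.discr (K D) = D) →
    ∑ D ∈ S, (Nat.card {c : ClassGroup (𝓞 (K D)) // c ^ l = 1} : ℝ) ^ r ≤
      C * X ^ (1 + r / 2 - min ((k : ℝ) ^ 2 / (4 * (l : ℝ) ^ 2))
        (r * (1 - (k : ℝ) ^ 2 / (4 * (l : ℝ) ^ 2)) / (2 * k)) + ε : ℝ) := by
  obtain ⟨C, hC0, hC⟩ := dyad l k r hr hk hkl hrk ε hε
  refine ⟨2 * C, by positivity, ?_⟩
  intro X hX S K _ _ hS
  have hr1 : (1 : ℝ) ≤ r := by exact_mod_cast hr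
  have hl0 : (0 : ℝ) < l := by exact_mod_cast (by omega : 0 < l)
  have hklR : (k : ℝ) ≤ l := by exact_mod_cast hkl
  obtain ⟨θ, hθ⟩ : ∃ θ : ℝ, θ = 1 + r / 2 - min ((k : ℝ) ^ 2 / (4 * (l : ℝ) ^ 2))
        (r * (1 - (k : ℝ) ^ 2 / (4 * (l : ℝ) ^ 2)) / (2 * k)) + ε := ⟨_, rfl⟩
  rw [← hθ] at hC ⊢
  have hθ1 : 1 ≤ θ := by
    have h1 : (k : ℝ) ^ 2 / (4 * (l : ℝ) ^ 2) ≤ 1 / 4 := by
      rw [div_le_div_iff₀ (by positivity) (by norm_num)]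
      have : (k : ℝ) ^ 2 ≤ (l : ℝ) ^ 2 := pow_le_pow_left₀ (Nat.cast_nonneg _) hklR 2
      linarith
    have h2 := min_le_left ((k : ℝ) ^ 2 / (4 * (l : ℝ) ^ 2))
        (r * (1 - (k : ℝ) ^ 2 / (4 * (l : ℝ) ^ 2)) / (2 * k))
    rw [hθ]; linarith
  have hX0 : 0 < X := by linarith
  obtain ⟨T, hT⟩ : ∃ T : ℤ → ℝ, T = fun D => (Nat.card {c : ClassGroup (𝓞 (K D)) // c ^ l = 1} : ℝ) :=
    ⟨_, rfl⟩
  have hTD : ∀ D, (Nat.card {c : ClassGroup (𝓞 (K D)) // c ^ l = 1} : ℝ) = T D := by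
    intro D; rw [hT]
  have hgoal : ∑ D ∈ S, (Nat.card {c : ClassGroup (𝓞 (K D)) // c ^ l = 1} : ℝ) ^ r = ∑ D ∈ S, T D ^ r :=
    Finset.sum_congr rfl fun D _ => by rw [hTD]
  rw [hgoal]
  obtain ⟨J, hJ⟩ : ∃ J : ℕ, J = Nat.log 2 ⌊X⌋₊ := ⟨_, rfl⟩
  have hX1 : 1 ≤ ⌊X⌋₊ := Nat.le_floor (by exact_mod_cast hX)
  have hmaps : ∀ D ∈ S, Nat.log 2 D.natAbs ∈ Finset.range (J + 1) := by
    intro D hD
    rw [mem_range, Nat.lt_succ_iff, hJ]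
    apply Nat.log_mono_right
    apply Nat.le_floor
    rw [Nat.cast_natAbs, Int.cast_abs]
    exact (hS D hD).1
  have hblock : ∀ j ∈ Finset.range (J + 1),
      ∑ D ∈ S.filter (fun D => Nat.log 2 D.natAbs = j), T D ^ r ≤ C * ((2 : ℝ) ^ θ) ^ j := by
    intro j _
    obtain ⟨x, hx⟩ : ∃ x : ℝ, x = (2 : ℝ) ^ j := ⟨_, rfl⟩
    have hx1 : 1 ≤ x := by rw [hx]; exact one_le_pow₀ (by norm_num)
    have h3 := hC x hx1 (S.filter (fun D => Nat.log 2 D.natAbs = j)) K (by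
      intro D hD
      rw [mem_filter] at hD
      obtain ⟨hDS, hDj⟩ := hD
      obtain ⟨-, h4, h5⟩ := hS D hDS
      have hDne : D.natAbs ≠ 0 := by
        rw [← h5]
        exact Int.natAbs_ne_zero.mpr (NumberField.discr_ne_zero _)
      have h6 : |(D : ℝ)| = (D.natAbs : ℝ) := by rw [Nat.cast_natAbs, Int.cast_abs]
      refine ⟨⟨?_, ?_⟩, h4, h5⟩
      · rw [h6, hx, ← hDj]
        exact_mod_cast Nat.pow_log_le_self 2 hDne
      · have h7 := Nat.lt_pow_succ_log_self (b := 2) (by norm_num) D.natAbs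
        rw [hDj] at h7
        rw [h6, hx]
        have h8 : (D.natAbs : ℝ) ≤ (2 : ℝ) ^ (j + 1) := by exact_mod_cast h7.le
        rw [pow_succ] at h8
        linarith)
    have h3' : ∑ D ∈ S.filter (fun D => Nat.log 2 D.natAbs = j), T D ^ r ≤ C * x ^ θ := by
      rw [hT]
      exact h3
    refine h3'.trans (le_of_eq ?_)
    rw [hx, ← Real.rpow_natCast 2 j, ← Real.rpow_mul (by norm_num), mul_comm (j : ℝ),
      Real.rpow_mul (by norm_num), Real.rpow_natCast]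
  have h2θ : (2 : ℝ) ≤ 2 ^ θ := by
    calc (2 : ℝ) = 2 ^ (1 : ℝ) := (Real.rpow_one 2).symm
      _ ≤ 2 ^ θ := Real.rpow_le_rpow_of_exponent_le (by norm_num) hθ1
  calc ∑ D ∈ S, T D ^ r
      = ∑ j ∈ Finset.range (J + 1), ∑ D ∈ S.filter (fun D => Nat.log 2 D.natAbs = j), T D ^ r :=
        (Finset.sum_fiberwise_of_maps_to hmaps _).symm
    _ ≤ ∑ j ∈ Finset.range (J + 1), C * ((2 : ℝ) ^ θ) ^ j := Finset.sum_le_sum hblock
    _ = C * ∑ j ∈ Finset.range (J + 1), ((2 : ℝ) ^ θ) ^ j := by rw [Finset.mul_sum]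
    _ ≤ C * (2 * ((2 : ℝ) ^ θ) ^ J) := by
        have := geom_le h2θ J
        gcongr
    _ ≤ C * (2 * X ^ θ) := by
        have h1 : ((2 : ℝ) ^ θ) ^ J ≤ X ^ θ := by
          rw [← Real.rpow_natCast, ← Real.rpow_mul (by norm_num), mul_comm θ,
            Real.rpow_mul (by norm_num), Real.rpow_natCast]
          apply Real.rpow_le_rpow (by positivity) _ (by linarith)
          have h2 : 2 ^ J ≤ ⌊X⌋₊ := by
            rw [hJ]
            exact Nat.pow_log_le_self 2 (by omega)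
          have h3 : ((2 ^ J : ℕ) : ℝ) ≤ ⌊X⌋₊ := by exact_mod_cast h2
          push_cast at h3
          exact h3.trans (Nat.floor_le hX0.le)
        gcongr
    _ = 2 * C * X ^ θ := by ring

/-- the exponent for large `l` -/
theorem expo (l : ℕ) (hl : 100 ≤ l) : ∃ k : ℕ, 2 ≤ k ∧ k ≤ l ∧
    3 / (8 * (l : ℝ) ^ ((2 : ℝ) / 3)) < min ((k : ℝ) ^ 2 / (4 * (l : ℝ) ^ 2))
        ((1 : ℕ) * (1 - (k : ℝ) ^ 2 / (4 * (l : ℝ) ^ 2)) / (2 * k)) := by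
  have hlR : (100 : ℝ) ≤ l := by exact_mod_cast hl
  have hl0 : (0 : ℝ) < l := by linarith
  obtain ⟨t, ht⟩ : ∃ t : ℝ, t = (l : ℝ) ^ ((2 : ℝ) / 3) := ⟨_, rfl⟩
  rw [← ht]
  have ht0 : 0 < t := by rw [ht]; positivity
  have ht3 : t ^ 3 = (l : ℝ) ^ 2 := by
    rw [ht, ← Real.rpow_natCast, ← Real.rpow_mul hl0.le, ← Real.rpow_natCast]
    norm_num
  have ht21 : 21.5 ≤ t := by
    by_contra h
    rw [not_le] at h
    have h1 : t ^ 3 < 21.5 ^ 3 := pow_lt_pow_left₀ h ht0.le (by norm_num)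
    rw [ht3] at h1
    nlinarith
  have htl : t ≤ l := by
    rw [ht]
    calc (l : ℝ) ^ ((2 : ℝ) / 3) ≤ (l : ℝ) ^ (1 : ℝ) :=
          Real.rpow_le_rpow_of_exponent_le (by linarith) (by norm_num)
      _ = l := Real.rpow_one _
  -- `c = 2 ^ (1/3)`
  obtain ⟨c, hc⟩ : ∃ c : ℝ, c = (2 : ℝ) ^ ((1 : ℝ) / 3) := ⟨_, rfl⟩
  have hc0 : 0 < c := by rw [hc]; positivity
  have hc3 : c ^ 3 = 2 := by
    rw [hc, ← Real.rpow_natCast, ← Real.rpow_mul (by norm_num)]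
    norm_num
  have hc1 : c ≤ 1.26 := by
    by_contra h
    rw [not_le] at h
    have h1 : (1.26 : ℝ) ^ 3 < c ^ 3 := pow_lt_pow_left₀ h (by norm_num) (by norm_num)
    rw [hc3] at h1
    norm_num at h1
  have hc2 : 1.2599 ≤ c := by
    by_contra h
    rw [not_le] at h
    have h1 : c ^ 3 < (1.2599 : ℝ) ^ 3 := pow_lt_pow_left₀ h hc0.le (by norm_num)
    rw [hc3] at h1
    norm_num at h1
  obtain ⟨k, hk⟩ : ∃ k : ℕ, k = ⌈c * t⌉₊ := ⟨_, rfl⟩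
  have hkl1 : c * t ≤ k := by rw [hk]; exact Nat.le_ceil _
  have hkl2 : (k : ℝ) < c * t + 1 := by rw [hk]; exact Nat.ceil_lt_add_one (by positivity)
  have hk27 : (27 : ℝ) ≤ k := by nlinarith
  have hk0 : (0 : ℝ) < k := by linarith
  refine ⟨k, ?_, ?_, ?_⟩
  · have : (2 : ℝ) ≤ k := by linarith
    exact_mod_cast this
  · have h1 : (k : ℝ) ≤ l := by
      -- `1.26 t + 1 ≤ t ^ (3/2)`: `(1.26 t + 1) ^ 2 ≤ t ^ 3 = l ^ 2`
      have h2 : (k : ℝ) ^ 2 ≤ (l : ℝ) ^ 2 := by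
        rw [← ht3]
        have h3 : (k : ℝ) ≤ 1.31 * t := by nlinarith
        have h4 : (k : ℝ) ^ 2 ≤ (1.31 * t) ^ 2 := pow_le_pow_left₀ hk0.le h3 2
        nlinarith
      exact (pow_le_pow_iff_left₀ hk0.le hl0.le two_ne_zero).1 h2
    exact_mod_cast h1
  · rw [← ht3]
    have hkt : (k : ℝ) < 1.26 * t + 1 := by nlinarith
    apply lt_min
    · rw [div_lt_div_iff₀ (by positivity) (by positivity)]
      have h1 : (c * t) ^ 2 ≤ (k : ℝ) ^ 2 := pow_le_pow_left₀ (by positivity) hkl1 2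
      have h2 : 1.5 < c ^ 2 := by nlinarith
      have h3 : 1.5 * t ^ 2 < (k : ℝ) ^ 2 := by nlinarith
      have h4 : 1.5 * t ^ 2 * (8 * t) < (k : ℝ) ^ 2 * (8 * t) := mul_lt_mul_of_pos_right h3 (by positivity)
      nlinarith
    · rw [Nat.cast_one, one_mul]
      -- the value at `c t + 1`
      have hkc : (k : ℝ) ≤ c * t + 1 := hkl2.le
      have h1 : (k : ℝ) ^ 2 / (4 * t ^ 3) ≤ 0.427 / t := by
        rw [div_le_div_iff₀ (by positivity) ht0]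
        have h2 : (k : ℝ) ≤ 1.30652 * t := by nlinarith
        have h3 : (k : ℝ) ^ 2 ≤ (1.30652 * t) ^ 2 := pow_le_pow_left₀ hk0.le h2 2
        have h4 : (k : ℝ) ^ 2 * t ≤ (1.30652 * t) ^ 2 * t := mul_le_mul_of_nonneg_right h3 ht0.le
        nlinarith
      rw [div_lt_div_iff₀ (by positivity) (by positivity)]
      have h5 : (1 - 0.427 / t) * (8 * t) = 8 * t - 3.416 := by
        field_simp
        ring
      have h6 : (1 - 0.427 / t) * (8 * t) ≤ (1 - (k : ℝ) ^ 2 / (4 * t ^ 3)) * (8 * t) := by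
        apply mul_le_mul_of_nonneg_right _ (by positivity)
        linarith
      nlinarith

/-- the mean value for large `l` -/
theorem mean (l : ℕ) (hl : 100 ≤ l) : ∃ C : ℝ, 0 < C ∧ ∀ X : ℝ, 1 ≤ X →
    ∀ (S : Finset ℤ) (K : ℤ → Type) [∀ D, Field (K D)] [∀ D, NumberField (K D)],
    (∀ D ∈ S, |(D : ℝ)| ≤ X ∧ Module.finrank ℚ (K D) = 2 ∧ NumberField.discr (K D) = D) →
    ∑ D ∈ S, (Nat.card {c : ClassGroup (𝓞 (K D)) // c ^ l = 1} : ℝ) ≤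
      C * X ^ (3 / 2 - 3 / (8 * (l : ℝ) ^ ((2 : ℝ) / 3)) : ℝ) := by
  obtain ⟨k, hk2, hkl, hlt⟩ := expo l hl
  obtain ⟨v, hv⟩ : ∃ v, v = min ((k : ℝ) ^ 2 / (4 * (l : ℝ) ^ 2))
        ((1 : ℕ) * (1 - (k : ℝ) ^ 2 / (4 * (l : ℝ) ^ 2)) / (2 * k)) := ⟨_, rfl⟩
  obtain ⟨u, hu⟩ : ∃ u, u = 3 / (8 * (l : ℝ) ^ ((2 : ℝ) / 3)) := ⟨_, rfl⟩
  rw [← hv, ← hu] at hlt
  obtain ⟨C, hC0, hC⟩ := full l k 1 le_rfl (by omega) hkl (by omega) (v - u) (by linarith)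
  refine ⟨C, hC0, ?_⟩
  intro X hX S K _ _ hS
  have h1 := hC X hX S K hS
  rw [← hv] at h1
  rw [← hu]
  simp only [pow_one] at h1
  refine h1.trans (le_of_eq ?_)
  congr 2
  push_cast
  ring

end Pool.Agent.U916.GT
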