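import Pool.Agent.U916.GT.Avg
import Pool.Agent.Y159.QS.Fin

/-!
# The moments over a dyadic window
-/

set_option autoImplicit false

namespace Pool.Agent.U916.GT

open NumberField Finset Filter Pool.Agent.TH869.EVF Pool.Agent.Y159.QS
open scoped Classical

lemma large_rpow (c a : ℝ) (ha : 0 < a) : ∃ x0 : ℝ, 1 ≤ x0 ∧ ∀ x : ℝ, x0 ≤ x → c ≤ x ^ a := by
  obtain ⟨N, hN⟩ := eventually_atTop.mp ((tendsto_rpow_atTop ha).eventually_ge_atTop c)
  exact ⟨max N 1, le_max_right _ _, fun x hx => hN x ((le_max_left _ _).trans hx)⟩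

/-- the choice of the range of the primes -/
theorem range_choice (l k r : ℕ) (hr : 1 ≤ r) (hk : 1 ≤ k) (hkl : k ≤ l) (hrk : 3 * r ≤ 2 * k) (κ : ℝ)
    (hκ0 : 0 < κ) (hκ8 : κ ≤ 1 / 8) (hκδ : 2 * κ ≤ (k : ℝ) ^ 2 / (4 * (l : ℝ) ^ 2)) :
    ∃ C X0 : ℝ, 0 < C ∧ 1 ≤ X0 ∧ ∀ X : ℝ, X0 ≤ X → ∃ z : ℕ, 5 ≤ z ∧ ((z : ℝ) ^ 2) ^ k ≤ X ∧
      ((z : ℝ) ^ 2) ^ k ≤ X ^ (1 - (k : ℝ) ^ 2 / (4 * (l : ℝ) ^ 2) + 2 * κ) ∧
      X ^ (1 - (k : ℝ) ^ 2 / (4 * (l : ℝ) ^ 2)) ≤ ((z : ℝ) ^ 2 / 4) ^ k ∧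
      0 < ((Qz z).card : ℝ) ∧
      (1 / ((Qz z).card : ℝ)) ^ r ≤ X ^ (-(r * (1 - (k : ℝ) ^ 2 / (4 * (l : ℝ) ^ 2)) / (2 * k))) ∧
      ∀ S : Finset ℤ, (∀ D ∈ S, X ≤ |(D : ℝ)| ∧ |(D : ℝ)| ≤ 2 * X) →
      ((S.filter (fun D => (((Qz z).filter (fun p => QR p D)).card : ℝ) <
        (Qz z).card / 8)).card : ℝ) ≤
        C * (X * X ^ (-(r * (1 - (k : ℝ) ^ 2 / (4 * (l : ℝ) ^ 2)) / (2 * k))) +
          X ^ (1 - (k : ℝ) ^ 2 / (4 * (l : ℝ) ^ 2))) := by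
  have hk0 : (0 : ℝ) < k := by exact_mod_cast hk
  have hk1 : (1 : ℝ) ≤ k := by exact_mod_cast hk
  have hr1 : (1 : ℝ) ≤ r := by exact_mod_cast hr
  have hl0 : (0 : ℝ) < l := by exact_mod_cast (by omega : 0 < l)
  have hklR : (k : ℝ) ≤ l := by exact_mod_cast hkl
  have hrkR : 3 * (r : ℝ) ≤ 2 * k := by exact_mod_cast hrk
  obtain ⟨δ, hδ⟩ : ∃ δ : ℝ, δ = (k : ℝ) ^ 2 / (4 * (l : ℝ) ^ 2) := ⟨_, rfl⟩
  rw [← hδ] at hκδ ⊢
  have hδ4 : δ ≤ 1 / 4 := by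
    rw [hδ, div_le_div_iff₀ (by positivity) (by norm_num)]
    nlinarith
  have hδ0 : 0 < δ := by rw [hδ]; positivity
  have h1δ : 3 / 4 ≤ 1 - δ := by linarith
  obtain ⟨c, hc⟩ : ∃ c : ℝ, c = (1 - δ) * (1 + 2 * κ) / (2 * k) := ⟨_, rfl⟩
  have hc0 : 0 < c := by rw [hc]; positivity
  have hck : c * (2 * k) = (1 - δ) * (1 + 2 * κ) := by rw [hc]; field_simp
  have hcκ : (1 - δ) * (1 + κ / 2) ≤ c * (1 - κ) * (2 * k) := by
    have e1 : c * (1 - κ) * (2 * k) = (1 - δ) * ((1 + 2 * κ) * (1 - κ)) := by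
      calc c * (1 - κ) * (2 * k) = (c * (2 * k)) * (1 - κ) := by ring
        _ = (1 - δ) * ((1 + 2 * κ) * (1 - κ)) := by rw [hck]; ring
    rw [e1]
    apply mul_le_mul_of_nonneg_left _ (by linarith)
    nlinarith
  obtain ⟨C4, Y0, hC40, hY01, hC4⟩ := supplyD r hr κ hκ0 (by linarith)
  obtain ⟨x1, hx11, hx1⟩ := large_rpow Y0 c hc0
  obtain ⟨x2, hx21, hx2⟩ := large_rpow 5 (c * (1 - κ)) (mul_pos hc0 (by linarith))
  obtain ⟨x3, hx31, hx3⟩ := large_rpow (4 ^ k) ((1 - δ) * (κ / 2)) (by positivity)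
  refine ⟨C4, max x1 (max x2 x3), hC40, le_max_of_le_left hx11, ?_⟩
  intro X hX
  have hXx1 : x1 ≤ X := (le_max_left _ _).trans hX
  have hXx2 : x2 ≤ X := ((le_max_left _ _).trans (le_max_right _ _)).trans hX
  have hXx3 : x3 ≤ X := ((le_max_right _ _).trans (le_max_right _ _)).trans hX
  have hX1 : 1 ≤ X := hx11.trans hXx1
  have hX0 : 0 < X := by linarith
  obtain ⟨y, hy⟩ : ∃ y : ℝ, y = X ^ c := ⟨_, rfl⟩
  have hyY : Y0 ≤ y := by rw [hy]; exact hx1 X hXx1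
  have hy0 : 0 < y := by rw [hy]; exact Real.rpow_pos_of_pos hX0 _
  have hy1 : 1 ≤ y := by rw [hy]; exact Real.one_le_rpow hX1 hc0.le
  obtain ⟨z, hzy, hz, hbad⟩ := hC4 y hyY
  have hyκ : y ^ (1 - κ) = X ^ (c * (1 - κ)) := by
    rw [hy, ← Real.rpow_mul hX0.le]
  have hcz : ((Qz z).card : ℝ) ≤ z := by
    have := card_Qz z
    linarith
  have hz5 : (5 : ℝ) ≤ z := by
    have h1 := hx2 X hXx2
    rw [← hyκ] at h1
    linarith
  have hz5N : 5 ≤ z := by exact_mod_cast hz5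
  have hzκ : X ^ (c * (1 - κ)) ≤ z := by rw [← hyκ]; linarith
  have hy2k : (y ^ 2) ^ k = X ^ ((1 - δ) * (1 + 2 * κ)) := by
    rw [← pow_mul, ← Real.rpow_natCast, hy, ← Real.rpow_mul hX0.le, ← hck]
    push_cast
    rfl
  have hz2k : ((z : ℝ) ^ 2) ^ k ≤ X ^ ((1 - δ) * (1 + 2 * κ)) := by
    rw [← hy2k]
    gcongr
  have hzA : ((z : ℝ) ^ 2) ^ k ≤ X ^ (1 - δ + 2 * κ) := by
    refine hz2k.trans (Real.rpow_le_rpow_of_exponent_le hX1 ?_)
    nlinarith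
  have hzB : ((z : ℝ) ^ 2) ^ k ≤ X := by
    refine hzA.trans ?_
    have := Real.rpow_le_rpow_of_exponent_le hX1 (show 1 - δ + 2 * κ ≤ 1 by linarith)
    rwa [Real.rpow_one] at this
  have hs : ((1 - δ) / (2 * k)) ≤ c * (1 - κ) := by
    rw [div_le_iff₀ (by positivity)]
    refine le_trans ?_ hcκ
    nlinarith
  have hN0 : X ^ ((1 - δ) / (2 * k)) ≤ ((Qz z).card : ℝ) := by
    rw [hyκ] at hz
    exact (Real.rpow_le_rpow_of_exponent_le hX1 hs).trans hz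
  have hN0p : 0 < ((Qz z).card : ℝ) := (Real.rpow_pos_of_pos hX0 _).trans_le hN0
  refine ⟨z, hz5N, hzB, hzA, ?_, hN0p, ?_, ?_⟩
  · rw [div_pow, le_div_iff₀ (by positivity)]
    have e1 : (X ^ (c * (1 - κ))) ^ (2 * k) ≤ ((z : ℝ) ^ 2) ^ k := by
      rw [← pow_mul]
      exact pow_le_pow_left₀ (by positivity) hzκ _
    have e2 : (X ^ (c * (1 - κ))) ^ (2 * k) = X ^ (c * (1 - κ) * (2 * k)) := by
      rw [← Real.rpow_natCast, ← Real.rpow_mul hX0.le]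
      push_cast
      rfl
    rw [e2] at e1
    refine le_trans ?_ e1
    refine le_trans ?_ (Real.rpow_le_rpow_of_exponent_le hX1 hcκ)
    have e3 : (1 - δ) * (1 + κ / 2) = (1 - δ) + (1 - δ) * (κ / 2) := by ring
    rw [e3, Real.rpow_add hX0]
    exact mul_le_mul_of_nonneg_left (hx3 X hXx3) (by positivity)
  · have e1 : 1 / ((Qz z).card : ℝ) ≤ X ^ (-((1 - δ) / (2 * k))) := by
      rw [Real.rpow_neg hX0.le, inv_eq_one_div]
      exact one_div_le_one_div_of_le (Real.rpow_pos_of_pos hX0 _) hN0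
    calc (1 / ((Qz z).card : ℝ)) ^ r ≤ (X ^ (-((1 - δ) / (2 * k)))) ^ r :=
          pow_le_pow_left₀ (by positivity) e1 r
      _ = X ^ (-(r * (1 - δ) / (2 * k))) := by
          rw [← Real.rpow_natCast, ← Real.rpow_mul hX0.le]
          congr 1
          ring
  · intro S hS
    have h1 := hbad X X hX0.le hX1 S (fun D hD => ⟨(hS D hD).1, by linarith [(hS D hD).2]⟩)
    refine h1.trans ?_
    apply mul_le_mul_of_nonneg_left _ hC40.le
    apply add_le_add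
    · apply mul_le_mul_of_nonneg_left _ hX0.le
      rw [hy, ← Real.rpow_mul hX0.le]
      apply Real.rpow_le_rpow_of_exponent_le hX1
      have e1 : c * (-((1 - κ) * (r : ℝ))) = -(r * (c * (1 - κ))) := by ring
      have e2 : (r : ℝ) * (1 - δ) / (2 * k) = r * ((1 - δ) / (2 * k)) := by ring
      rw [e1, e2]
      apply neg_le_neg
      exact mul_le_mul_of_nonneg_left hs (by linarith)
    · rw [hy, ← Real.rpow_natCast, ← Real.rpow_mul hX0.le]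
      apply Real.rpow_le_rpow_of_exponent_le hX1
      push_cast
      have e1 : c * (2 * (r : ℝ)) ≤ c * (4 / 3 * k) := mul_le_mul_of_nonneg_left (by linarith) hc0.le
      have e2 : c * (4 / 3 * (k : ℝ)) = 2 / 3 * ((1 - δ) * (1 + 2 * κ)) := by
        linarith
      have e3 : 2 / 3 * ((1 - δ) * (1 + 2 * κ)) ≤ 1 - δ := by nlinarith
      linarith

/-- **the moments over a dyadic window** -/
theorem dyad (l k r : ℕ) (hr : 1 ≤ r) (hk : 1 ≤ k) (hkl : k ≤ l) (hrk : 3 * r ≤ 2 * k) (ε : ℝ)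
    (hε : 0 < ε) : ∃ C : ℝ, 0 < C ∧ ∀ X : ℝ, 1 ≤ X →
    ∀ (S : Finset ℤ) (K : ℤ → Type) [∀ D, Field (K D)] [∀ D, NumberField (K D)],
    (∀ D ∈ S, (X ≤ |(D : ℝ)| ∧ |(D : ℝ)| ≤ 2 * X) ∧ Module.finrank ℚ (K D) = 2 ∧
      NumberField.discr (K D) = D) →
    ∑ D ∈ S, (Nat.card {c : ClassGroup (𝓞 (K D)) // c ^ l = 1} : ℝ) ^ r ≤
      C * X ^ (1 + r / 2 - min ((k : ℝ) ^ 2 / (4 * (l : ℝ) ^ 2))
        (r * (1 - (k : ℝ) ^ 2 / (4 * (l : ℝ) ^ 2)) / (2 * k)) + ε : ℝ) := by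
  have hl : 1 ≤ l := by omega
  have hk0 : (0 : ℝ) < k := by exact_mod_cast hk
  have hk1 : (1 : ℝ) ≤ k := by exact_mod_cast hk
  have hr1 : (1 : ℝ) ≤ r := by exact_mod_cast hr
  have hl0 : (0 : ℝ) < l := by exact_mod_cast hl
  have hklR : (k : ℝ) ≤ l := by exact_mod_cast hkl
  obtain ⟨δ, hδ⟩ : ∃ δ : ℝ, δ = (k : ℝ) ^ 2 / (4 * (l : ℝ) ^ 2) := ⟨_, rfl⟩
  have hδ4 : δ ≤ 1 / 4 := by
    rw [hδ, div_le_div_iff₀ (by positivity) (by norm_num)]
    nlinarith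
  have hδ0 : 0 < δ := by rw [hδ]; positivity
  obtain ⟨s0, hs0⟩ : ∃ s0 : ℝ, s0 = r * (1 - δ) / (2 * k) := ⟨_, rfl⟩
  obtain ⟨s, hs⟩ : ∃ s : ℝ, s = min δ s0 := ⟨_, rfl⟩
  have hsδ : s ≤ δ := by rw [hs]; exact min_le_left _ _
  have hss0 : s ≤ s0 := by rw [hs]; exact min_le_right _ _
  have hsp : 0 ≤ s := by
    rw [hs, hs0]
    apply le_min hδ0.le
    have : 0 ≤ 1 - δ := by linarith
    positivity
  obtain ⟨κ, hκ⟩ : ∃ κ : ℝ, κ = min (min (1 / 8) (δ / 2)) (ε / 8) := ⟨_, rfl⟩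
  have hκ0 : 0 < κ := by rw [hκ]; exact lt_min (lt_min (by norm_num) (by positivity)) (by positivity)
  have hκ8 : κ ≤ 1 / 8 := by rw [hκ]; exact (min_le_left _ _).trans (min_le_left _ _)
  have hκδ : 2 * κ ≤ δ := by
    have : κ ≤ δ / 2 := by rw [hκ]; exact (min_le_left _ _).trans (min_le_right _ _)
    linarith
  have hκε : κ ≤ ε / 8 := by rw [hκ]; exact min_le_right _ _
  obtain ⟨ε1, hε1⟩ : ∃ ε1 : ℝ, ε1 = min (ε / (4 * r)) (1 / 2) := ⟨_, rfl⟩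
  have hε10 : 0 < ε1 := by rw [hε1]; exact lt_min (by positivity) (by norm_num)
  have hε1h : ε1 ≤ 1 / 2 := by rw [hε1]; exact min_le_right _ _
  have hrε1 : r * ε1 ≤ ε / 4 := by
    have h1 : ε1 ≤ ε / (4 * r) := by rw [hε1]; exact min_le_left _ _
    rw [le_div_iff₀ (by positivity)] at h1
    linarith
  obtain ⟨C0, hC00, hC0⟩ := single ε1 hε10
  obtain ⟨C3, x3, hC30, hx31, hC3⟩ := sumE l k hk hkl (ε / 4) (by positivity)
  obtain ⟨C4, x4, hC40, hx41, hC4⟩ := range_choice l k r hr hk hkl hrk κ hκ0 hκ8 (by rw [← hδ]; exact hκδ)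
  rw [← hδ] at hC3 hC4 ⊢
  rw [← hs0] at hC4 ⊢
  rw [← hs]
  obtain ⟨X1, hX1⟩ : ∃ X1 : ℝ, X1 = max x3 x4 := ⟨_, rfl⟩
  have hX11 : 1 ≤ X1 := by rw [hX1]; exact le_max_of_le_left hx31
  obtain ⟨Csm, hCsm⟩ : ∃ Csm : ℝ, Csm = 4 * X1 * (2 * C0 * X1 ^ (1 / 2 + ε1)) ^ r := ⟨_, rfl⟩
  have hCsm0 : 0 < Csm := by rw [hCsm]; positivity
  obtain ⟨Cb, hCb⟩ : ∃ Cb : ℝ, Cb = (2048 * C0) ^ r * 2 ^ (r - 1) * (4 + C3 + 2 * C4) := ⟨_, rfl⟩
  have hCb0 : 0 < Cb := by rw [hCb]; positivity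
  refine ⟨Csm + Cb, by positivity, ?_⟩
  intro X hX S K _ _ hS
  have hX0 : 0 < X := by linarith
  obtain ⟨θ, hθ⟩ : ∃ θ : ℝ, θ = 1 + r / 2 - s + ε := ⟨_, rfl⟩
  rw [← hθ]
  have hθ0 : 0 ≤ θ := by
    rw [hθ]
    have : 0 ≤ (r : ℝ) / 2 := by positivity
    linarith
  have hXθ : 1 ≤ X ^ θ := Real.one_le_rpow hX hθ0
  obtain ⟨B, hB⟩ : ∃ B : ℝ, B = C0 * (2 * X ^ (1 / 2 + ε1)) := ⟨_, rfl⟩
  have hB0 : 0 < B := by rw [hB]; positivity
  have hDB : ∀ D ∈ S, C0 * |(D : ℝ)| ^ (1 / 2 + ε1) ≤ B := by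
    intro D hD
    have h1 : |(D : ℝ)| ≤ 2 * X := (hS D hD).1.2
    have h2 : |(D : ℝ)| ^ (1 / 2 + ε1) ≤ 2 * X ^ (1 / 2 + ε1) := by
      calc |(D : ℝ)| ^ (1 / 2 + ε1) ≤ (2 * X) ^ (1 / 2 + ε1) :=
            Real.rpow_le_rpow (abs_nonneg _) h1 (by positivity)
        _ = 2 ^ (1 / 2 + ε1) * X ^ (1 / 2 + ε1) := Real.mul_rpow (by norm_num) hX0.le
        _ ≤ 2 ^ (1 : ℝ) * X ^ (1 / 2 + ε1) := by
            gcongr
            · norm_num
            · linarith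
        _ = _ := by rw [Real.rpow_one]
    rw [hB]
    gcongr
  obtain ⟨T, hT⟩ : ∃ T : ℤ → ℝ, T = fun D => (Nat.card {c : ClassGroup (𝓞 (K D)) // c ^ l = 1} : ℝ) :=
    ⟨_, rfl⟩
  have hTD : ∀ D, (Nat.card {c : ClassGroup (𝓞 (K D)) // c ^ l = 1} : ℝ) = T D := by
    intro D; rw [hT]
  have hT0 : ∀ D, 0 ≤ T D := by
    intro D
    rw [← hTD]
    exact Nat.cast_nonneg _
  have hTB : ∀ D ∈ S, T D ≤ B := by
    intro D hD
    have h1 := (hC0 l hl (K D) (hS D hD).2.1 0 ∅ (by simp)).1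
    rw [(hS D hD).2.2, hTD] at h1
    exact h1.trans (hDB D hD)
  have hgoal : ∑ D ∈ S, (Nat.card {c : ClassGroup (𝓞 (K D)) // c ^ l = 1} : ℝ) ^ r = ∑ D ∈ S, T D ^ r :=
    Finset.sum_congr rfl fun D _ => by rw [hTD]
  rw [hgoal]
  have hScard : (S.card : ℝ) ≤ 4 * X := card_window hX S (fun D hD => ⟨(hS D hD).1.1, by
    linarith [(hS D hD).1.2]⟩)
  rcases lt_or_ge X X1 with hXX | hXX
  · -- small `X`
    have h1 : ∑ D ∈ S, T D ^ r ≤ 4 * X * B ^ r := by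
      calc ∑ D ∈ S, T D ^ r ≤ ∑ D ∈ S, B ^ r :=
            Finset.sum_le_sum fun D hD => pow_le_pow_left₀ (hT0 D) (hTB D hD) r
        _ = S.card * B ^ r := by rw [sum_const, nsmul_eq_mul]
        _ ≤ _ := by gcongr
    have h2 : 4 * X * B ^ r ≤ Csm := by
      rw [hCsm]
      apply mul_le_mul (by linarith) _ (by positivity) (by positivity)
      apply pow_le_pow_left₀ hB0.le
      rw [hB]
      have : X ^ (1 / 2 + ε1) ≤ X1 ^ (1 / 2 + ε1) := Real.rpow_le_rpow hX0.le hXX.le (by positivity)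
      calc C0 * (2 * X ^ (1 / 2 + ε1)) = 2 * C0 * X ^ (1 / 2 + ε1) := by ring
        _ ≤ _ := by gcongr
    calc ∑ D ∈ S, T D ^ r ≤ Csm := h1.trans h2
      _ ≤ (Csm + Cb) * 1 := by linarith
      _ ≤ (Csm + Cb) * X ^ θ := by gcongr
  · -- large `X`
    have hXx3 : x3 ≤ X := by rw [hX1] at hXX; exact (le_max_left _ _).trans hXX
    have hXx4 : x4 ≤ X := by rw [hX1] at hXX; exact (le_max_right _ _).trans hXX
    obtain ⟨z, hz5, hzB, hzA, hzC, hN0p, hN0s, hbad⟩ := hC4 X hXx4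
    obtain ⟨N0, hN0⟩ : ∃ N0 : ℝ, N0 = ((Qz z).card : ℝ) := ⟨_, rfl⟩
    have hEC := hC3 X hXx3 z hz5 hzB hzC S (fun D hD => (hS D hD).1)
    have hbad' := hbad S (fun D hD => (hS D hD).1)
    obtain ⟨Z, hZ⟩ : ∃ Z : ℝ, Z = (150 * (z : ℝ)) ^ l := ⟨_, rfl⟩
    rw [← hN0] at hN0p hN0s hEC
    rw [← hZ] at hEC
    have hXs0 : X ^ (-s0) ≤ X ^ (-s) := Real.rpow_le_rpow_of_exponent_le hX (by linarith)
    replace hN0s := hN0s.trans hXs0
    replace hbad' : _ ≤ C4 * (X * X ^ (-s) + X ^ (1 - δ)) := hbad'.trans (by gcongr)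
    obtain ⟨E, hE⟩ : ∃ E : ℤ → ℝ, E = fun D => (EC l Z D ((Qz z).filter (fun p => QR p D)) : ℝ) :=
      ⟨_, rfl⟩
    obtain ⟨W, hW⟩ : ∃ W : ℝ, W = (1024 * B) ^ r * 2 ^ (r - 1) := ⟨_, rfl⟩
    have hW0 : 0 < W := by rw [hW]; positivity
    obtain ⟨bad, hbadd⟩ : ∃ bad : Finset ℤ, bad = S.filter (fun D =>
      (((Qz z).filter (fun p => QR p D)).card : ℝ) < (Qz z).card / 8) := ⟨_, rfl⟩
    rw [← hbadd] at hbad'
    have hE0 : ∀ D, 0 ≤ E D := by intro D; rw [hE]; exact Nat.cast_nonneg _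
    have hpt : ∀ D ∈ S, T D ^ r ≤ W * ((1 / N0) ^ r + E D / N0 ^ 2 + if D ∈ bad then 1 else 0) := by
      intro D hD
      have hE0' : (0 : ℝ) ≤ E D / N0 ^ 2 := div_nonneg (hE0 D) (by positivity)
      by_cases hDb : D ∈ bad
      · rw [if_pos hDb]
        have h1 : T D ^ r ≤ B ^ r := pow_le_pow_left₀ (hT0 D) (hTB D hD) r
        have h2 : B ^ r ≤ W := by
          have h3 : (1 : ℝ) ≤ 1024 ^ r := one_le_pow₀ (by norm_num)
          have h4 : (1 : ℝ) ≤ 2 ^ (r - 1) := one_le_pow₀ (by norm_num)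
          calc B ^ r = 1 * B ^ r * 1 := by ring
            _ ≤ 1024 ^ r * B ^ r * 2 ^ (r - 1) := by gcongr
            _ = W := by rw [hW, mul_pow 1024 B r]
        have h5 : 0 ≤ (1 / N0) ^ r := by positivity
        nlinarith
      · rw [if_neg hDb, add_zero]
        have hgood : N0 / 8 ≤ (((Qz z).filter (fun p => QR p D)).card : ℝ) := by
          by_contra hcon
          rw [not_le] at hcon
          rw [hN0] at hcon
          exact hDb (by rw [hbadd, mem_filter]; exact ⟨hD, hcon⟩)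
        obtain ⟨P, hP⟩ : ∃ P : Finset ℕ, P = (Qz z).filter (fun p => QR p D) := ⟨_, rfl⟩
        have hPQ : P ⊆ Qz z := by rw [hP]; exact filter_subset _ _
        have hED : E D = (EC l Z D P : ℝ) := by rw [hE, hP]
        rw [← hP] at hgood
        have hPle : (P.card : ℝ) ≤ N0 := by rw [hN0]; exact_mod_cast card_le_card hPQ
        have h6 := (hC0 l hl (K D) (hS D hD).2.1 z P (by
          intro p hp
          rw [hP, mem_filter] at hp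
          obtain ⟨hpQ, hqr⟩ := hp
          obtain ⟨hpp, -, hpz⟩ := mem_Qz hpQ
          rw [(hS D hD).2.2]
          refine ⟨hpp, by exact_mod_cast hpz, ?_, hqr⟩
          intro hpD
          exact qr_ndvd hpp hqr (Int.natCast_dvd.2 hpD))).2
        rw [(hS D hD).2.2, hTD, ← hZ, ← hED] at h6
        have h7 : T D * (P.card : ℝ) ^ 2 ≤ B * (2 * P.card + 4 * E D) := by
          refine h6.trans ?_
          apply mul_le_mul_of_nonneg_right (hDB D hD)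
          have := hE0 D
          positivity
        have hN16 : N0 / 16 ≤ (P.card : ℝ) := by linarith
        rw [hW]
        refine good_bound r hr (hT0 D) hB0.le hN0p hN16 (hE0 D) ?_ h7
        rw [hED]
        have h8 : (EC l Z D P : ℝ) ≤ (P.card : ℝ) ^ 2 := by exact_mod_cast (EC_le (l := l) (Z := Z) (D := D) (P := P))
        refine h8.trans ?_
        gcongr
    -- the three sums
    obtain ⟨V, hV⟩ : ∃ V : ℝ, V = X * X ^ (-s) := ⟨_, rfl⟩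
    have hV0 : 0 < V := by rw [hV]; positivity
    have hVs : X ^ (1 - s) = V := by
      rw [hV, sub_eq_add_neg, Real.rpow_add hX0, Real.rpow_one]
    have hVδ : X ^ (1 - δ) ≤ V := by
      rw [← hVs]
      exact Real.rpow_le_rpow_of_exponent_le hX (by linarith)
    obtain ⟨F, hF⟩ : ∃ F : ℝ, F = X ^ (ε / 4 + 2 * κ) := ⟨_, rfl⟩
    have hF1 : 1 ≤ F := by rw [hF]; exact Real.one_le_rpow hX (by positivity)
    have hs1 : (S.card : ℝ) * (1 / N0) ^ r ≤ 4 * (V * F) := by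
      calc (S.card : ℝ) * (1 / N0) ^ r ≤ 4 * X * X ^ (-s) := by gcongr
        _ = 4 * V := by rw [hV]; ring
        _ ≤ 4 * (V * F) := by nlinarith
    have hs2 : ∑ D ∈ S, E D / N0 ^ 2 ≤ C3 * (V * F) := by
      rw [← Finset.sum_div, div_le_iff₀ (by positivity)]
      have e1 : ∑ D ∈ S, E D ≤ C3 * X ^ (ε / 4) * ((z : ℝ) ^ 2) ^ k * N0 ^ 2 := by
        rw [hE]; exact hEC
      refine e1.trans ?_
      have e2 : X ^ (ε / 4) * ((z : ℝ) ^ 2) ^ k ≤ V * F := by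
        calc X ^ (ε / 4) * ((z : ℝ) ^ 2) ^ k ≤ X ^ (ε / 4) * X ^ (1 - δ + 2 * κ) := by gcongr
          _ = X ^ (1 - δ) * F := by
              rw [hF, ← Real.rpow_add hX0, ← Real.rpow_add hX0]
              congr 1
              ring
          _ ≤ V * F := by gcongr
      calc C3 * X ^ (ε / 4) * ((z : ℝ) ^ 2) ^ k * N0 ^ 2 =
          C3 * (X ^ (ε / 4) * ((z : ℝ) ^ 2) ^ k) * N0 ^ 2 := by ring
        _ ≤ C3 * (V * F) * N0 ^ 2 := by gcongr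
    have hs3 : (bad.card : ℝ) ≤ 2 * C4 * (V * F) := by
      refine hbad'.trans ?_
      rw [← hV]
      calc C4 * (V + X ^ (1 - δ)) ≤ C4 * (V + V) := by gcongr
        _ = 2 * C4 * V := by ring
        _ ≤ 2 * C4 * (V * F) := by
            apply mul_le_mul_of_nonneg_left _ (by positivity)
            nlinarith
    have hfin : ∑ D ∈ S, T D ^ r ≤ W * ((4 + C3 + 2 * C4) * (V * F)) := by
      calc ∑ D ∈ S, T D ^ r ≤ ∑ D ∈ S, W * ((1 / N0) ^ r + E D / N0 ^ 2 +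
            if D ∈ bad then 1 else 0) := Finset.sum_le_sum hpt
        _ = W * ((S.card : ℝ) * (1 / N0) ^ r + ∑ D ∈ S, E D / N0 ^ 2 + bad.card) := by
            rw [← Finset.mul_sum, Finset.sum_add_distrib, Finset.sum_add_distrib, sum_const,
              nsmul_eq_mul]
            congr 2
            rw [← Finset.sum_filter, sum_const, nsmul_eq_mul, mul_one]
            congr 2
            ext D
            rw [mem_filter, hbadd, mem_filter]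
            tauto
        _ ≤ W * (4 * (V * F) + C3 * (V * F) + 2 * C4 * (V * F)) := by gcongr
        _ = _ := by ring
    have hWle : W ≤ (2048 * C0) ^ r * 2 ^ (r - 1) * X ^ ((r : ℝ) / 2 + ε / 4) := by
      have h1 : (1024 * B) ^ r = (2048 * C0) ^ r * (X ^ (1 / 2 + ε1)) ^ r := by
        rw [hB, ← mul_pow]; congr 1; ring
      have h2 : (X ^ (1 / 2 + ε1)) ^ r ≤ X ^ ((r : ℝ) / 2 + ε / 4) := by
        rw [← Real.rpow_natCast, ← Real.rpow_mul hX0.le]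
        apply Real.rpow_le_rpow_of_exponent_le hX
        linarith
      rw [hW, h1]
      calc (2048 * C0) ^ r * (X ^ (1 / 2 + ε1)) ^ r * 2 ^ (r - 1)
          ≤ (2048 * C0) ^ r * X ^ ((r : ℝ) / 2 + ε / 4) * 2 ^ (r - 1) := by gcongr
        _ = _ := by ring
    refine hfin.trans ?_
    have hVF : X ^ ((r : ℝ) / 2 + ε / 4) * (V * F) ≤ X ^ θ := by
      rw [← hVs, hF, ← Real.rpow_add hX0, ← Real.rpow_add hX0]
      apply Real.rpow_le_rpow_of_exponent_le hX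
      rw [hθ]
      linarith
    calc W * ((4 + C3 + 2 * C4) * (V * F))
        ≤ ((2048 * C0) ^ r * 2 ^ (r - 1) * X ^ ((r : ℝ) / 2 + ε / 4)) * ((4 + C3 + 2 * C4) * (V * F)) := by
          gcongr
      _ = Cb * (X ^ ((r : ℝ) / 2 + ε / 4) * (V * F)) := by rw [hCb]; ring
      _ ≤ Cb * X ^ θ := by gcongr
      _ ≤ (Csm + Cb) * X ^ θ := by
          apply mul_le_mul_of_nonneg_right _ (by positivity)
          linarith

end Pool.Agent.U916.GT
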