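import Pool.Agent.U916.GT.Siz
import Pool.Agent.U916.GT.Bez
import Pool.Agent.Q182.PL.MIN
import Pool.Agent.W75.PL.DIV

/-!
# Few discriminants in one residue class
-/

set_option autoImplicit false

namespace Pool.Agent.U916.GT

open Polynomial Pool.Agent.W223.HZ Pool.Agent.W223.PL

/-- the polynomial `B ^ 2 + (b + a X) A ^ 2 - c` is not zero -/
lemma poly_ne (A B : ℤ[X]) (a b c : ℤ) (ha : a ≠ 0) (hA : A ≠ 0) :
    B ^ 2 + (C b + C a * X) * A ^ 2 - C c ≠ 0 := by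
  intro h
  have h1 : (C b + C a * X) * A ^ 2 = C c - B ^ 2 := by linear_combination h
  have hlin : (C b + C a * X : ℤ[X]).natDegree = 1 := by
    rw [add_comm, natDegree_add_C, natDegree_C_mul_X a ha]
  have hlin0 : (C b + C a * X : ℤ[X]) ≠ 0 := by
    intro h0
    rw [h0, natDegree_zero] at hlin
    omega
  have h2 : ((C b + C a * X) * A ^ 2).natDegree = 1 + 2 * A.natDegree := by
    rw [natDegree_mul hlin0 (pow_ne_zero 2 hA), hlin, natDegree_pow]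
  by_cases hB : B.natDegree = 0
  · rw [h1] at h2
    have h3 : (C c - B ^ 2).natDegree ≤ 0 := by
      refine (natDegree_sub_le _ _).trans (max_le ?_ ?_)
      · rw [natDegree_C]
      · rw [natDegree_pow, hB]
    omega
  · have h3 : (C c - B ^ 2).natDegree = 2 * B.natDegree := by
      rw [← natDegree_neg, neg_sub, sub_eq_add_neg, ← C_neg, natDegree_add_C, natDegree_pow]
    rw [h1] at h2
    omega

lemma poly_deg (A B : ℤ[X]) (a b c : ℤ) (m : ℕ) (hA : A.natDegree < m) (hB : B.natDegree < m) :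
    (B ^ 2 + (C b + C a * X) * A ^ 2 - C c).natDegree ≤ 2 * m := by
  refine (natDegree_sub_le _ _).trans (max_le ?_ ?_)
  · refine (natDegree_add_le _ _).trans (max_le ?_ ?_)
    · refine natDegree_pow_le.trans ?_
      omega
    · refine natDegree_mul_le.trans ?_
      have h1 : (C b + C a * X : ℤ[X]).natDegree ≤ 1 := by
        refine (natDegree_add_le _ _).trans (max_le ?_ ?_)
        · rw [natDegree_C]
          exact Nat.zero_le _
        · exact (natDegree_C_mul_le _ _).trans natDegree_X_le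
      have h2 : (A ^ 2).natDegree ≤ 2 * A.natDegree := natDegree_pow_le
      omega
  · rw [natDegree_C]
    exact Nat.zero_le _

theorem cls (l k : ℕ) (hk : 1 ≤ k) (hkl : k ≤ l) (Kc b0 : ℝ) (hKc : 1 ≤ Kc) (hb0 : 0 ≤ b0) (ε : ℝ)
    (hε : 0 < ε) : ∃ C X0 : ℝ, 0 < C ∧ 1 ≤ X0 ∧ ∀ X : ℝ, X0 ≤ X → ∀ P : ℕ, 1 ≤ P → (P : ℝ) ^ k ≤ X →
    ∀ Bx By : ℝ, 0 ≤ Bx → 0 ≤ By → Bx * By * √X ≤ Kc * (P : ℝ) ^ l → Bx ≤ X ^ b0 → By ≤ X ^ b0 →
    ∀ d₀ s u n : ℤ, (P : ℤ) ∣ s ^ 2 + d₀ → (P : ℤ) ∣ 1 + 2 * s * u →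
    ∀ (T : Finset ℤ) (x y : ℤ → ℤ),
    (∀ σ ∈ T, x σ ^ 2 + (d₀ + (P : ℤ) ^ k * σ) * y σ ^ 2 = (P : ℤ) ^ l * n) →
    (∀ σ ∈ T, IsCoprime (x σ) (y σ)) → (∀ σ ∈ T, 1 ≤ y σ) →
    (∀ σ ∈ T, IsCoprime (2 * s * y σ) (P : ℤ)) → (∀ σ ∈ T, (P : ℤ) ∣ x σ - s * y σ) →
    (∀ σ ∈ T, |(x σ : ℝ)| ≤ Bx ∧ |(y σ : ℝ)| ≤ By) →
    (∀ σ ∈ T, |(σ : ℝ)| ≤ X ^ ((k : ℝ) ^ 2 / (4 * (l : ℝ) ^ 2))) → (T.card : ℝ) ≤ C * X ^ ε := by
  classical
  have hMIN : StmtMIN := Pool.Agent.Q182.PL.min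
  have hk0 : (0 : ℝ) < k := by exact_mod_cast hk
  have hl0 : (0 : ℝ) < l := by exact_mod_cast (by omega : 0 < l)
  have hklR : (k : ℝ) ≤ l := by exact_mod_cast hkl
  obtain ⟨m, hm⟩ : ∃ m : ℕ, m = ⌈((l : ℝ) / k) ^ 2⌉₊ := ⟨_, rfl⟩
  have hm1 : 1 ≤ m := by
    rw [hm]
    apply Nat.ceil_pos.2
    positivity
  have hm1R : (1 : ℝ) ≤ m := by exact_mod_cast hm1
  obtain ⟨δ, hδ⟩ : ∃ δ : ℝ, δ = (k : ℝ) ^ 2 / (4 * (l : ℝ) ^ 2) := ⟨_, rfl⟩
  have hδ0 : 0 ≤ δ := by rw [hδ]; positivity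
  rw [← hδ]
  -- the exponent of the size of the right side of the Bezout identity
  obtain ⟨b1, hb1⟩ : ∃ b1 : ℝ, b1 = b0 + δ * m + 1 := ⟨_, rfl⟩
  obtain ⟨G, hG⟩ : ∃ G : ℝ, G = ((2 * m).factorial : ℝ) * ((2 * m : ℝ) ^ (2 * m)) ^ (2 * m) := ⟨_, rfl⟩
  have hG0 : 0 < G := by
    rw [hG]
    positivity
  obtain ⟨e1, he1⟩ : ∃ e1 : ℝ, e1 = b1 * ((2 * m) * (2 * m)) := ⟨_, rfl⟩
  have he10 : 0 < e1 := by
    rw [he1, hb1]
    have : 0 ≤ δ * m := by positivity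
    have h2 : 0 < b0 + δ * m + 1 := by linarith
    positivity
  obtain ⟨Cd, hCd1, hCd⟩ := Pool.Agent.W75.PL.DIV.t (ε / e1) (by positivity)
  refine ⟨(m : ℝ) ^ 2 + 2 * m * (Cd * G ^ (ε / e1)), max 1 ((((2 * m).factorial : ℝ) * Kc ^ m) ^ 4 + 1),
    by positivity, le_max_left _ _, ?_⟩
  intro X hX P hP1 hP Bx By hBx hBy hB hBx2 hBy2 d₀ s u n hs hu T x y heq hxy1 hy1 hcop hxy hsz hσ
  have hX1 : 1 ≤ X := (le_max_left _ _).trans hX
  have hX0 : 0 < X := by linarith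
  have hX2 : (((2 * m).factorial : ℝ) * Kc ^ m) ^ 4 < X := by
    have := (le_max_right 1 ((((2 * m).factorial : ℝ) * Kc ^ m) ^ 4 + 1)).trans hX
    linarith
  obtain ⟨L, hL⟩ : ∃ L : ℝ, L = X ^ δ := ⟨_, rfl⟩
  have hL1 : 1 ≤ L := by rw [hL]; exact Real.one_le_rpow hX1 hδ0
  have hdet : ∀ f : Fin m ⊕ Fin m → ℤ, (∀ i, f i ∈ T) →
      (Mat m (fun i => x (f i)) (fun i => y (f i)) f).det = 0 := by
    intro f hf
    exact vanish l k m hk hkl hm hKc hX2 hP1 hP hBx hBy hB (by linarith : 0 ≤ L)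
      (by rw [← hδ, hL]) d₀ s u n _ _ f hs hu (fun i => heq _ (hf i))
      (fun i => hcop _ (hf i)) (fun i => hxy _ (hf i)) (fun i => (hsz _ (hf i)).1)
      (fun i => (hsz _ (hf i)).2) (fun i => by rw [hL]; exact hσ _ (hf i))
  obtain ⟨H, hH⟩ : ∃ H : ℝ, H = X ^ b1 := ⟨_, rfl⟩
  have hb1' : 0 ≤ b1 := by
    rw [hb1]
    have : 0 ≤ δ * m := by positivity
    linarith
  have hH1 : 1 ≤ H := by rw [hH]; exact Real.one_le_rpow hX1 hb1'
  have hτj : ∀ σ ∈ T, ∀ j ≤ m, |(σ : ℝ) ^ j| ≤ X ^ (δ * m) := by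
    intro σ hσT j hj
    rw [abs_pow]
    have e2 : L ^ m = X ^ (δ * m) := by
      rw [hL, ← Real.rpow_natCast, ← Real.rpow_mul hX0.le]
    rw [← e2]
    refine (pow_le_pow_left₀ (abs_nonneg _) (hσ σ hσT) j).trans ?_
    rw [← hL]
    exact pow_le_pow_right₀ hL1 hj
  have hHx : ∀ σ ∈ T, ∀ j < m, |((x σ * σ ^ j : ℤ) : ℝ)| ≤ H ∧ |((y σ * σ ^ j : ℤ) : ℝ)| ≤ H := by
    intro σ hσT j hj
    push_cast
    rw [abs_mul, abs_mul]
    have h0 : X ^ b0 * X ^ (δ * m) ≤ H := by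
      rw [hH, ← Real.rpow_add hX0]
      apply Real.rpow_le_rpow_of_exponent_le hX1
      rw [hb1]
      linarith
    have h1 := mul_le_mul ((hsz σ hσT).1.trans hBx2) (hτj σ hσT j hj.le) (abs_nonneg _) (by positivity)
    have h2 := mul_le_mul ((hsz σ hσT).2.trans hBy2) (hτj σ hσT j hj.le) (abs_nonneg _) (by positivity)
    exact ⟨h1.trans h0, h2.trans h0⟩
  obtain ⟨T', hT'T, hT'c, A, B, hAB, hAd, hBd, hAc, hBc, hcp, hrel⟩ :=
    hMIN m hm1 T x y H hH1 hHx hdet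
  have hcard : (T.card : ℝ) ≤ T'.card + (m : ℝ) ^ 2 := by
    have h1 := Finset.card_sdiff_add_card_eq_card hT'T
    have h2 : (T.card : ℝ) = ((T \ T').card : ℝ) + T'.card := by exact_mod_cast h1.symm
    have h3 : ((T \ T').card : ℝ) ≤ (m : ℝ) ^ 2 := by exact_mod_cast hT'c
    linarith
  have hH2 : (1 : ℝ) ≤ (2 * m * H) ^ (2 * m) := by
    apply one_le_pow₀
    nlinarith
  obtain ⟨U, W, ρ, hρ0, hUW, hρ⟩ := bez m hm1 A B hH2 hAd.le hBd.le hAc hBc hcp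
  -- the size of `ρ`
  have hρ2 : |(ρ : ℝ)| ≤ G * X ^ e1 := by
    refine hρ.trans (le_of_eq ?_)
    rw [hG, he1, hH, mul_pow, mul_pow, mul_assoc]
    congr 2
    rw [← pow_mul, ← Real.rpow_natCast, ← Real.rpow_mul hX0.le]
    congr 1
    push_cast
    ring
  -- the points
  have hg : ∀ σ ∈ T', ∃ g : ℤ, A.eval σ = y σ * g ∧ B.eval σ = - x σ * g := by
    intro σ hσT
    have h1 := hrel σ hσT
    have h2 : y σ ∣ x σ * A.eval σ := ⟨-B.eval σ, by linear_combination h1⟩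
    obtain ⟨g, hg⟩ := (hxy1 σ (hT'T hσT)).symm.dvd_of_dvd_mul_left h2
    have hy0 : y σ ≠ 0 := by
      have := hy1 σ (hT'T hσT)
      omega
    refine ⟨g, hg, ?_⟩
    apply mul_left_cancel₀ hy0
    rw [hg] at h1
    linear_combination h1
  obtain ⟨Pg, hPg⟩ : ∃ Pg : ℕ → Polynomial ℤ, Pg = fun g : ℕ => B ^ 2 + (Polynomial.C d₀ +
      Polynomial.C ((P : ℤ) ^ k) * Polynomial.X) * A ^ 2 -
      Polynomial.C ((g : ℤ) ^ 2 * ((P : ℤ) ^ l * n)) := ⟨_, rfl⟩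
  have hPk : ((P : ℤ) ^ k) ≠ 0 := by
    have : (P : ℤ) ≠ 0 := by exact_mod_cast (by omega : P ≠ 0)
    exact pow_ne_zero _ this
  have hcov : T' ⊆ ρ.natAbs.divisors.biUnion (fun g => (Pg g).roots.toFinset) := by
    intro σ hσT
    obtain ⟨g, hgA, hgB⟩ := hg σ hσT
    have hgρ : g ∣ ρ := by
      have e2 := congrArg (Polynomial.eval σ) hUW
      rw [eval_add, eval_mul, eval_mul, eval_C, hgA, hgB] at e2
      exact ⟨y σ * U.eval σ - x σ * W.eval σ, by linear_combination -e2⟩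
    have hg0 : g ≠ 0 := by
      rintro rfl
      exact hρ0 (zero_dvd_iff.1 hgρ)
    have hA0 : A ≠ 0 := by
      rintro rfl
      rw [eval_zero] at hgA
      have hy0 : y σ ≠ 0 := by
        have := hy1 σ (hT'T hσT)
        omega
      exact (mul_ne_zero hy0 hg0) hgA.symm
    rw [Finset.mem_biUnion]
    refine ⟨g.natAbs, ?_, ?_⟩
    · rw [Nat.mem_divisors]
      exact ⟨Int.natAbs_dvd_natAbs.2 hgρ, Int.natAbs_ne_zero.2 hρ0⟩
    · rw [Multiset.mem_toFinset, mem_roots']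
      constructor
      · rw [hPg]
        exact poly_ne A B _ _ _ hPk hA0
      · rw [IsRoot.def, hPg]
        simp only [eval_sub, eval_add, eval_mul, eval_pow, eval_C, eval_X]
        rw [hgA, hgB, Int.natCast_natAbs, sq_abs]
        have e2 := heq σ (hT'T hσT)
        linear_combination (g ^ 2) * e2
  have hroots : ∀ g ∈ ρ.natAbs.divisors, (Pg g).roots.toFinset.card ≤ 2 * m := by
    intro g _
    refine (Multiset.toFinset_card_le _).trans ((card_roots' _).trans ?_)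
    rw [hPg]
    exact poly_deg A B _ _ _ m hAd hBd
  have h1 : T'.card ≤ ρ.natAbs.divisors.card * (2 * m) :=
    (Finset.card_le_card hcov).trans (Finset.card_biUnion_le_card_mul _ _ _ hroots)
  have h2 : (ρ.natAbs.divisors.card : ℝ) ≤ Cd * (G ^ (ε / e1) * X ^ ε) := by
    refine (hCd ρ.natAbs (Nat.one_le_iff_ne_zero.2 (Int.natAbs_ne_zero.2 hρ0))).trans ?_
    apply mul_le_mul_of_nonneg_left _ (by linarith)
    have e2 : ((ρ.natAbs : ℕ) : ℝ) ≤ G * X ^ e1 := by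
      rw [Nat.cast_natAbs, Int.cast_abs]
      exact hρ2
    refine (Real.rpow_le_rpow (Nat.cast_nonneg _) e2 (by positivity)).trans (le_of_eq ?_)
    rw [Real.mul_rpow hG0.le (by positivity), ← Real.rpow_mul hX0.le]
    congr 2
    field_simp
  have h3 : (T'.card : ℝ) ≤ (ρ.natAbs.divisors.card : ℝ) * (2 * m) := by exact_mod_cast h1
  have hXε : 1 ≤ X ^ ε := Real.one_le_rpow hX1 hε.le
  have h4 : (m : ℝ) ^ 2 ≤ (m : ℝ) ^ 2 * X ^ ε := le_mul_of_one_le_right (by positivity) hXε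
  calc (T.card : ℝ) ≤ T'.card + (m : ℝ) ^ 2 := hcard
    _ ≤ (Cd * (G ^ (ε / e1) * X ^ ε)) * (2 * m) + (m : ℝ) ^ 2 * X ^ ε := by
        refine add_le_add (h3.trans ?_) h4
        exact mul_le_mul_of_nonneg_right h2 (by positivity)
    _ = ((m : ℝ) ^ 2 + 2 * m * (Cd * G ^ (ε / e1))) * X ^ ε := by ring

end Pool.Agent.U916.GT
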