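import Pool.Agent.U916.GQ.Van

/-!
# The full divisibility of the determinant
-/

set_option autoImplicit false

namespace Pool.Agent.U916.GT

open Polynomial Pool.Agent.W223.HZ Pool.Agent.U916.GQ

lemma sum_ge (s : Finset ℕ) : ∑ i ∈ Finset.range s.card, i ≤ ∑ x ∈ s, x := by
  classical
  induction s using Finset.induction_on_max with
  | empty => simp
  | insert a s ha ih =>
    have hn : a ∉ s := fun h => lt_irrefl _ (ha a h)
    rw [Finset.card_insert_of_notMem hn, Finset.sum_range_succ, Finset.sum_insert hn]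
    have h1 : s.card ≤ a := by
      have : s ⊆ Finset.range a := fun x hx => Finset.mem_range.2 (ha x hx)
      have h2 := Finset.card_le_card this
      rwa [Finset.card_range] at h2
    omega

lemma comb {m : ℕ} (J : Finset (Fin m)) (a : Fin m → ℕ) (ha : Set.InjOn a J) :
    J.card ^ 2 ≤ ∑ j ∈ J, ((m - (j : ℕ)) + a j) := by
  classical
  have h1 : ∑ i ∈ Finset.range J.card, i ≤ ∑ j ∈ J, a j := by
    have e1 := sum_ge (J.image a)
    rw [Finset.card_image_of_injOn ha, Finset.sum_image ha] at e1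
    exact e1
  have h2 : ∑ i ∈ Finset.range J.card, i ≤ ∑ j ∈ J, (m - 1 - (j : ℕ)) := by
    have hinj : Set.InjOn (fun j : Fin m => m - 1 - (j : ℕ)) J := by
      intro j _ j' _ h
      simp only at h
      apply Fin.ext
      omega
    have e1 := sum_ge (J.image (fun j : Fin m => m - 1 - (j : ℕ)))
    rw [Finset.card_image_of_injOn hinj, Finset.sum_image hinj] at e1
    exact e1
  have h3 : ∑ j ∈ J, ((m - (j : ℕ)) + a j) = ∑ j ∈ J, (m - 1 - (j : ℕ)) + J.card + ∑ j ∈ J, a j := by
    rw [Finset.card_eq_sum_ones, ← Finset.sum_add_distrib, ← Finset.sum_add_distrib]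
    apply Finset.sum_congr rfl
    intro j _
    have := j.2
    omega
  have h4 := Finset.sum_range_id_mul_two J.card
  have h5 : J.card ^ 2 = J.card * (J.card - 1) + J.card := by
    rcases Nat.eq_zero_or_pos J.card with h | h
    · rw [h]
      norm_num
    · obtain ⟨c, hc⟩ : ∃ c, J.card = c + 1 := ⟨J.card - 1, by omega⟩
      rw [hc, Nat.add_sub_cancel]
      ring
  rw [h3, h5, ← h4]
  omega

/-- **the divisor of the determinant** -/
theorem det_dvd {m l k : ℕ} (hk : 1 ≤ k) (P : ℤ) (h : ℤ[X]) (x y σ : Fin m ⊕ Fin m → ℤ)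
    (hx : ∀ i, P ^ l ∣ x i - h.eval (P ^ k * σ i) * y i) (E : ℕ)
    (hE : ∀ t ≤ m, E ≤ k * t ^ 2 + l * (m - t)) :
    P ^ E ∣ (Mat m x y σ).det := by
  classical
  obtain ⟨R, hR⟩ : ∃ R : ℤ, R = P ^ k := ⟨_, rfl⟩
  rw [← hR] at hx
  obtain ⟨U, hU⟩ : ∃ U : Matrix (Fin m ⊕ Fin m) (Fin m ⊕ Fin m) ℤ,
      U = Matrix.fromBlocks 1 0 (-(Cm m R h.coeff)) 1 := ⟨_, rfl⟩
  have hdetU : U.det = 1 := by
    rw [hU, Matrix.det_fromBlocks_zero₁₂, Matrix.det_one, one_mul]
  have hl : ∀ i (j : Fin m), (Mat m x y σ * U) i (Sum.inl j) =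
      x i * σ i ^ (j : ℕ) - y i * (σ i ^ (j : ℕ) *
        ∑ n ∈ Finset.range (m - j), h.coeff n * (R ^ n * σ i ^ n)) := by
    intro i j
    rw [← sum_col, Matrix.mul_apply, Fintype.sum_sum_type, hU]
    simp only [Matrix.fromBlocks_apply₁₁, Matrix.fromBlocks_apply₂₁, Mat, Matrix.of_apply,
      Sum.elim_inl, Sum.elim_inr, Matrix.neg_apply]
    rw [Finset.mul_sum, sub_eq_add_neg, ← Finset.sum_neg_distrib]
    congr 1
    · rw [Finset.sum_eq_single j]
      · rw [Matrix.one_apply_eq, mul_one]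
      · intro b _ hb
        rw [Matrix.one_apply_ne hb, mul_zero]
      · intro hj
        exact absurd (Finset.mem_univ j) hj
    · apply Finset.sum_congr rfl
      intro l _
      ring
  have hr : ∀ i (j : Fin m), (Mat m x y σ * U) i (Sum.inr j) = y i * σ i ^ (j : ℕ) := by
    intro i j
    rw [Matrix.mul_apply, Fintype.sum_sum_type, hU]
    simp only [Matrix.fromBlocks_apply₁₂, Matrix.fromBlocks_apply₂₂, Mat, Matrix.of_apply,
      Sum.elim_inl, Sum.elim_inr, Matrix.zero_apply, mul_zero, Finset.sum_const_zero, zero_add]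
    rw [Finset.sum_eq_single j]
    · rw [Matrix.one_apply_eq, mul_one]
    · intro b _ hb
      rw [Matrix.one_apply_ne hb, mul_zero]
    · intro hj
      exact absurd (Finset.mem_univ j) hj
  have hV : ∀ i (j : Fin m), ∃ ξ : ℤ, (Mat m x y σ * U) i (Sum.inl j) = P ^ l * ξ +
      ∑ a : Fin l, (h.coeff (m - j + a) * P ^ (k * (m - j + a))) * (y i * σ i ^ (m + (a : ℕ))) := by
    intro i j
    rw [hl]
    obtain ⟨c, hc⟩ := eval_split h ((m - j) + l) R (σ i)
    obtain ⟨S, hS⟩ : ∃ S : ℤ, S = ∑ n ∈ Finset.range (m - j), h.coeff n * (R ^ n * σ i ^ n) :=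
      ⟨_, rfl⟩
    obtain ⟨d, hd⟩ := hx i
    obtain ⟨e, he⟩ : P ^ l ∣ R ^ ((m - (j : ℕ)) + l) := by
      rw [hR, ← pow_mul]
      apply pow_dvd_pow
      nlinarith
    have hsum : ∑ n ∈ Finset.range ((m - j) + l), h.coeff n * (R ^ n * σ i ^ n) =
        S + ∑ a : Fin l, h.coeff (m - j + a) * (R ^ (m - (j : ℕ) + a) * σ i ^ (m - (j : ℕ) + a)) := by
      rw [Finset.sum_range_add, hS, ← Fin.sum_univ_eq_sum_range (fun a => h.coeff (m - j + a) *
        (R ^ (m - (j : ℕ) + a) * σ i ^ (m - (j : ℕ) + a))) l]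
    have hterm : ∑ a : Fin l, (h.coeff (m - j + a) * P ^ (k * (m - j + a))) * (y i * σ i ^ (m + (a : ℕ))) =
        y i * σ i ^ (j : ℕ) * ∑ a : Fin l, h.coeff (m - j + a) *
          (R ^ (m - (j : ℕ) + a) * σ i ^ (m - (j : ℕ) + a)) := by
      rw [Finset.mul_sum]
      apply Finset.sum_congr rfl
      intro a _
      have e1 : m + (a : ℕ) = (j : ℕ) + (m - (j : ℕ) + a) := by
        have := j.2
        omega
      rw [e1, hR, ← pow_mul, pow_add (σ i)]
      ring
    refine ⟨(d + e * c * y i) * σ i ^ (j : ℕ), ?_⟩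
    rw [hterm, ← hS]
    rw [hsum, he] at hc
    have e2 : x i = P ^ l * d + h.eval (R * σ i) * y i := by linear_combination hd
    rw [e2, hc]
    ring
  choose Ξ hΞ using hV
  -- the expansion of the determinant
  obtain ⟨cc, hcc⟩ : ∃ cc : Fin m ⊕ Fin m → Option (Fin l) → ℤ, cc = Sum.elim
      (fun j o => match o with
        | some a => h.coeff (m - j + a) * P ^ (k * (m - j + a))
        | none => P ^ l)
      (fun _ o => match o with
        | some _ => 0
        | none => 1) := ⟨_, rfl⟩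
  obtain ⟨mm, hmm⟩ : ∃ mm : Fin m ⊕ Fin m → Option (Fin l) → (Fin m ⊕ Fin m → ℤ), mm = Sum.elim
      (fun j o => match o with
        | some a => fun i => y i * σ i ^ (m + (a : ℕ))
        | none => fun i => Ξ i j)
      (fun j o => match o with
        | some _ => 0
        | none => fun i => y i * σ i ^ (j : ℕ)) := ⟨_, rfl⟩
  have hrows : (Mat m x y σ * U).transpose = fun c => ∑ o : Option (Fin l), cc c o • mm c o := by
    ext c i
    rw [Finset.sum_apply, Matrix.transpose_apply]
    simp only [Pi.smul_apply, smul_eq_mul]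
    rw [Fintype.sum_option]
    rcases c with j | j
    · rw [hcc, hmm]
      simp only [Sum.elim_inl]
      rw [hΞ]
    · rw [hcc, hmm]
      simp only [Sum.elim_inr]
      rw [hr]
      simp
  have hdet : (Mat m x y σ).det = ∑ r : (Fin m ⊕ Fin m) → Option (Fin l),
      (∏ c, cc c (r c)) * Matrix.det (fun c => mm c (r c)) := by
    have e1 : (Mat m x y σ).det = (Mat m x y σ * U).transpose.det := by
      rw [Matrix.det_transpose, Matrix.det_mul, hdetU, mul_one]
    rw [e1, hrows]
    have e2 := (Matrix.detRowAlternating : ((Fin m ⊕ Fin m) → ℤ) [⋀^(Fin m ⊕ Fin m)]→ₗ[ℤ] ℤ).toMultilinearMap.map_sum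
      (fun c (o : Option (Fin l)) => cc c o • mm c o)
    have e3 : Matrix.det (fun c => ∑ o : Option (Fin l), cc c o • mm c o) =
        ∑ r : (Fin m ⊕ Fin m) → Option (Fin l), Matrix.det (fun c => cc c (r c) • mm c (r c)) := e2
    rw [e3]
    apply Finset.sum_congr rfl
    intro r _
    have e4 := (Matrix.detRowAlternating : ((Fin m ⊕ Fin m) → ℤ) [⋀^(Fin m ⊕ Fin m)]→ₗ[ℤ] ℤ).toMultilinearMap.map_smul_univ
      (fun c => cc c (r c)) (fun c => mm c (r c))
    exact e4
  rw [hdet]
  apply Finset.dvd_sum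
  intro r _
  by_cases hinr : ∀ j, r (Sum.inr j) = none
  swap
  · rw [not_forall] at hinr
    obtain ⟨j, hj⟩ := hinr
    obtain ⟨a, ha⟩ := Option.ne_none_iff_exists'.1 hj
    have : ∏ c, cc c (r c) = 0 := by
      apply Finset.prod_eq_zero (Finset.mem_univ (Sum.inr j))
      rw [hcc]
      simp only [Sum.elim_inr]
      rw [ha]
    rw [this, zero_mul]
    exact dvd_zero _
  by_cases hinj : ∀ j j' : Fin m, ∀ a : Fin l, r (Sum.inl j) = some a → r (Sum.inl j') = some a → j = j'
  swap
  · push Not at hinj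
    obtain ⟨j, j', a, h1, h2, h3⟩ := hinj
    have : Matrix.det (fun c => mm c (r c)) = 0 := by
      apply Matrix.det_zero_of_row_eq (i := Sum.inl j) (j := Sum.inl j')
      · intro h4
        exact h3 (Sum.inl.inj h4)
      · rw [hmm]
        simp only [Sum.elim_inl]
        rw [h1, h2]
    rw [this, mul_zero]
    exact dvd_zero _
  apply Dvd.dvd.mul_right
  rw [Fintype.prod_sum_type]
  apply Dvd.dvd.mul_right
  -- the exponents
  obtain ⟨J, hJ⟩ : ∃ J : Finset (Fin m), J = Finset.univ.filter (fun j => r (Sum.inl j) ≠ none) := ⟨_, rfl⟩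
  obtain ⟨av, hav⟩ : ∃ av : Fin m → ℕ, ∀ j a, r (Sum.inl j) = some a → av j = (a : ℕ) := by
    refine ⟨fun j => match r (Sum.inl j) with
      | some a => (a : ℕ)
      | none => 0, ?_⟩
    intro j a h
    simp only [h]
  have hw : ∀ j : Fin m, P ^ (if r (Sum.inl j) = none then l else k * (m - j + av j)) ∣
      cc (Sum.inl j) (r (Sum.inl j)) := by
    intro j
    rw [hcc]
    simp only [Sum.elim_inl]
    rcases ho : r (Sum.inl j) with _ | a
    · rw [if_pos rfl]
    · rw [if_neg (by simp), hav j a ho]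
      exact Dvd.intro_left _ rfl
  have hprod := Finset.prod_dvd_prod_of_dvd (fun j : Fin m => P ^ (if r (Sum.inl j) = none then l
    else k * (m - j + av j))) (fun j : Fin m => cc (Sum.inl j) (r (Sum.inl j))) (s := Finset.univ)
    (fun j _ => hw j)
  refine Dvd.dvd.trans ?_ hprod
  rw [Finset.prod_pow_eq_pow_sum]
  apply pow_dvd_pow
  have hc1 : J.card ≤ m := by
    have := Finset.card_le_univ J
    rwa [Fintype.card_fin] at this
  refine (hE J.card hc1).trans ?_
  have hinj' : Set.InjOn av J := by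
    intro j hj j' hj' hjj
    have hj2 : j ∈ J := hj
    have hj2' : j' ∈ J := hj'
    rw [hJ, Finset.mem_filter] at hj2 hj2'
    obtain ⟨a, ha⟩ := Option.ne_none_iff_exists'.1 hj2.2
    obtain ⟨a', ha'⟩ := Option.ne_none_iff_exists'.1 hj2'.2
    rw [hav j a ha, hav j' a' ha'] at hjj
    have : a = a' := Fin.ext hjj
    subst this
    exact hinj j j' a ha ha'
  have hcomb := comb J av hinj'
  have hsplit : ∑ j : Fin m, (if r (Sum.inl j) = none then l else k * (m - j + av j)) =
      l * (m - J.card) + k * ∑ j ∈ J, (m - (j : ℕ) + av j) := by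
    rw [Finset.sum_ite]
    congr 1
    · rw [Finset.sum_const, smul_eq_mul, mul_comm]
      congr 1
      have e1 := Finset.card_filter_add_card_filter_not (s := (Finset.univ : Finset (Fin m)))
        (fun j => r (Sum.inl j) = none)
      rw [Finset.card_univ, Fintype.card_fin] at e1
      rw [hJ]
      simp only [ne_eq]
      omega
    · rw [hJ, Finset.mul_sum]
  rw [hsplit]
  have := Nat.mul_le_mul_left k hcomb
  omega

end Pool.Agent.U916.GT
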