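import Pool.Agent.U916.GT.Det
import Pool.Agent.U916.GQ.Siz

/-!
# The size of the determinant
-/

set_option autoImplicit false

namespace Pool.Agent.U916.GT

open Pool.Agent.W223.HZ Pool.Agent.U916.GQ

lemma E_exists (l k m : ℕ) (hk : 1 ≤ k) : ∃ E : ℕ, (∀ t ≤ m, E ≤ k * t ^ 2 + l * (m - t)) ∧
    (l : ℝ) * m - (l : ℝ) ^ 2 / (4 * k) ≤ E := by
  refine ⟨⌈(l : ℝ) * m - (l : ℝ) ^ 2 / (4 * k)⌉₊, ?_, Nat.le_ceil _⟩
  intro t ht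
  apply Nat.ceil_le.2
  have hk0 : (0 : ℝ) < k := by exact_mod_cast hk
  push_cast [Nat.cast_sub ht]
  have h1 : (0 : ℝ) ≤ (2 * k * t - l) ^ 2 / (4 * k) := by positivity
  have h2 : (2 * (k : ℝ) * t - l) ^ 2 / (4 * k) = k * t ^ 2 - l * t + l ^ 2 / (4 * k) := by
    field_simp
    ring
  rw [h2] at h1
  linarith

lemma size (l k m : ℕ) (hk : 1 ≤ k) (hkl : k ≤ l) (hm : m = ⌈((l : ℝ) / k) ^ 2⌉₊) {Kc X L Bx By : ℝ}
    {P E : ℕ} (hE : (l : ℝ) * m - (l : ℝ) ^ 2 / (4 * k) ≤ E) (hKc : 1 ≤ Kc)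
    (hX : (((2 * m).factorial : ℝ) * Kc ^ m) ^ 4 < X) (hP1 : 1 ≤ P) (hP : (P : ℝ) ^ k ≤ X)
    (hBx : 0 ≤ Bx) (hBy : 0 ≤ By) (hB : Bx * By * √X ≤ Kc * (P : ℝ) ^ l) (hL0 : 0 ≤ L)
    (hL : L ≤ X ^ ((k : ℝ) ^ 2 / (4 * (l : ℝ) ^ 2))) :
    ((2 * m).factorial : ℝ) * ((Bx * By) ^ m * L ^ (m * (m - 1))) < (P : ℝ) ^ E := by
  have hk0 : (0 : ℝ) < k := by exact_mod_cast hk
  have hl0 : (0 : ℝ) < l := by exact_mod_cast (by omega : 0 < l)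
  have hklR : (k : ℝ) ≤ l := by exact_mod_cast hkl
  obtain ⟨a, ha⟩ : ∃ a : ℝ, a = ((l : ℝ) / k) ^ 2 := ⟨_, rfl⟩
  have ha1 : 1 ≤ a := by
    rw [ha]
    apply one_le_pow₀
    rw [one_le_div hk0]
    exact hklR
  have ha0 : 0 < a := by linarith
  rw [← ha] at hm
  have hma : a ≤ m := by rw [hm]; exact Nat.le_ceil a
  have hma2 : (m : ℝ) < a + 1 := by rw [hm]; exact Nat.ceil_lt_add_one ha0.le
  have hm1 : 1 ≤ m := by
    have : (1 : ℝ) ≤ m := by linarith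
    exact_mod_cast this
  have hδ : (k : ℝ) ^ 2 / (4 * (l : ℝ) ^ 2) = 1 / (4 * a) := by
    rw [ha]
    field_simp
  have hla : (l : ℝ) ^ 2 / (4 * k) = k * (a / 4) := by
    rw [ha]
    field_simp
  rw [hδ] at hL
  rw [hla] at hE
  obtain ⟨F, hF⟩ : ∃ F : ℝ, F = ((2 * m).factorial : ℝ) := ⟨_, rfl⟩
  rw [← hF] at hX ⊢
  have hF1 : 1 ≤ F := by
    rw [hF]
    exact_mod_cast Nat.factorial_pos _
  have hFK1 : 1 ≤ F * Kc ^ m := by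
    have : 1 ≤ Kc ^ m := one_le_pow₀ hKc
    nlinarith
  have hX1 : 1 < X := lt_of_le_of_lt (one_le_pow₀ hFK1) hX
  have hX0 : 0 < X := by linarith
  have hPR : (0 : ℝ) < P := by exact_mod_cast hP1
  have hP1R : (1 : ℝ) ≤ P := by exact_mod_cast hP1
  -- the constant
  have h1 : F * Kc ^ m < X ^ ((1 : ℝ) / 4) := by
    have e1 : ((F * Kc ^ m) ^ 4) ^ ((1 : ℝ) / 4) = F * Kc ^ m := by
      rw [← Real.rpow_natCast, ← Real.rpow_mul (by positivity)]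
      norm_num
    rw [← e1]
    exact Real.rpow_lt_rpow (by positivity) hX (by norm_num)
  -- the product of the sizes
  have h2 : (Bx * By) ^ m ≤ Kc ^ m * ((P : ℝ) ^ l) ^ m * X ^ (-(m : ℝ) / 2) := by
    have e1 : Bx * By ≤ Kc * (P : ℝ) ^ l * X ^ (-(1 : ℝ) / 2) := by
      have e2 : X ^ (-(1 : ℝ) / 2) = (√X)⁻¹ := by
        rw [Real.sqrt_eq_rpow, ← Real.rpow_neg hX0.le]
        norm_num
      rw [e2, ← div_eq_mul_inv, le_div_iff₀ (Real.sqrt_pos.2 hX0)]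
      exact hB
    refine (pow_le_pow_left₀ (by positivity) e1 m).trans (le_of_eq ?_)
    rw [mul_pow, mul_pow, ← Real.rpow_natCast (X ^ (-(1 : ℝ) / 2)), ← Real.rpow_mul hX0.le]
    congr 2
    ring
  have h3 : L ^ (m * (m - 1)) ≤ X ^ (1 / (4 * a) * (m * (m - 1))) := by
    refine (pow_le_pow_left₀ hL0 hL _).trans (le_of_eq ?_)
    rw [← Real.rpow_natCast, ← Real.rpow_mul hX0.le]
    congr 1
    push_cast [Nat.cast_sub hm1]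
    ring
  have h4 : ((P : ℝ) ^ l) ^ m * X ^ (-(a / 4)) ≤ (P : ℝ) ^ E := by
    have e1 : (P : ℝ) ^ ((l : ℝ) * m - k * (a / 4)) ≤ (P : ℝ) ^ E := by
      rw [← Real.rpow_natCast (P : ℝ) E]
      exact Real.rpow_le_rpow_of_exponent_le hP1R hE
    refine le_trans ?_ e1
    rw [Real.rpow_sub hPR, ← pow_mul, div_eq_mul_inv, ← Real.rpow_natCast (P : ℝ) (l * m)]
    push_cast
    apply mul_le_mul_of_nonneg_left _ (by positivity)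
    rw [Real.rpow_neg hX0.le]
    apply inv_anti₀ (by positivity)
    rw [Real.rpow_mul hPR.le, Real.rpow_natCast]
    exact Real.rpow_le_rpow (by positivity) hP (by positivity)
  have hexp : (1 : ℝ) / 4 + (-(m : ℝ) / 2 + 1 / (4 * a) * (m * (m - 1))) ≤ -(a / 4) := by
    have e1 : (m : ℝ) * (m - 1) ≤ 2 * a * m - a ^ 2 - a := by nlinarith
    have e2 : 1 / (4 * a) * ((m : ℝ) * (m - 1)) ≤ 1 / (4 * a) * (2 * a * m - a ^ 2 - a) :=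
      mul_le_mul_of_nonneg_left e1 (by positivity)
    have e3 : 1 / (4 * a) * (2 * a * m - a ^ 2 - a) = m / 2 - a / 4 - 1 / 4 := by
      field_simp
      ring
    rw [e3] at e2
    linarith
  calc F * ((Bx * By) ^ m * L ^ (m * (m - 1)))
      ≤ F * ((Kc ^ m * ((P : ℝ) ^ l) ^ m * X ^ (-(m : ℝ) / 2)) * X ^ (1 / (4 * a) * (m * (m - 1)))) := by
        apply mul_le_mul_of_nonneg_left _ (by linarith)
        exact mul_le_mul h2 h3 (by positivity) (by positivity)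
    _ = (F * Kc ^ m) * (((P : ℝ) ^ l) ^ m * X ^ (-(m : ℝ) / 2 + 1 / (4 * a) * (m * (m - 1)))) := by
        rw [Real.rpow_add hX0]
        ring
    _ < X ^ ((1 : ℝ) / 4) * (((P : ℝ) ^ l) ^ m * X ^ (-(m : ℝ) / 2 + 1 / (4 * a) * (m * (m - 1)))) := by
        apply mul_lt_mul_of_pos_right h1
        positivity
    _ = ((P : ℝ) ^ l) ^ m * X ^ ((1 : ℝ) / 4 + (-(m : ℝ) / 2 + 1 / (4 * a) * (m * (m - 1)))) := by
        rw [Real.rpow_add hX0 ((1 : ℝ) / 4)]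
        ring
    _ ≤ ((P : ℝ) ^ l) ^ m * X ^ (-(a / 4)) := by
        apply mul_le_mul_of_nonneg_left _ (by positivity)
        exact Real.rpow_le_rpow_of_exponent_le hX1.le hexp
    _ ≤ (P : ℝ) ^ E := h4

/-- **the determinants vanish** -/
theorem vanish (l k m : ℕ) (hk : 1 ≤ k) (hkl : k ≤ l) (hm : m = ⌈((l : ℝ) / k) ^ 2⌉₊) {Kc X L Bx By : ℝ}
    {P : ℕ} (hKc : 1 ≤ Kc)
    (hX : (((2 * m).factorial : ℝ) * Kc ^ m) ^ 4 < X) (hP1 : 1 ≤ P) (hP : (P : ℝ) ^ k ≤ X)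
    (hBx : 0 ≤ Bx) (hBy : 0 ≤ By) (hB : Bx * By * √X ≤ Kc * (P : ℝ) ^ l) (hL0 : 0 ≤ L)
    (hL : L ≤ X ^ ((k : ℝ) ^ 2 / (4 * (l : ℝ) ^ 2))) (d₀ s u n : ℤ) (x y σ : Fin m ⊕ Fin m → ℤ)
    (hs : (P : ℤ) ∣ s ^ 2 + d₀) (hu : (P : ℤ) ∣ 1 + 2 * s * u)
    (heq : ∀ i, x i ^ 2 + (d₀ + (P : ℤ) ^ k * σ i) * y i ^ 2 = (P : ℤ) ^ l * n)
    (hcop : ∀ i, IsCoprime (2 * s * y i) (P : ℤ)) (hxy : ∀ i, (P : ℤ) ∣ x i - s * y i)
    (hx : ∀ i, |(x i : ℝ)| ≤ Bx) (hy : ∀ i, |(y i : ℝ)| ≤ By) (hσ : ∀ i, |(σ i : ℝ)| ≤ L) :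
    (Mat m x y σ).det = 0 := by
  obtain ⟨E, hE1, hE2⟩ := E_exists l k m hk
  have h1 : ∀ i, (P : ℤ) ^ l ∣ x i - (HH s u d₀ l).eval ((P : ℤ) ^ k * σ i) * y i := by
    intro i
    refine point_congr (P := (P : ℤ)) (Dvd.dvd.mul_right (dvd_pow_self _ (by omega)) _) hs hu
      (pow_dvd_pow _ (by omega)) (hxy i) (hcop i) ?_
    rw [heq i]
    exact Dvd.intro _ rfl
  have h2 := det_dvd hk (P : ℤ) (HH s u d₀ l) x y σ h1 E hE1
  have h3 := det_le m x y σ hBx hBy hx hy hσ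
  have h4 := size l k m hk hkl hm hE2 hKc hX hP1 hP hBx hBy hB hL0 hL
  have h5 := h3.trans_lt h4
  apply Int.eq_zero_of_abs_lt_dvd h2
  have h6 : ((|(Mat m x y σ).det| : ℤ) : ℝ) < (((P : ℤ) ^ E : ℤ) : ℝ) := by
    rw [Int.cast_abs, Int.cast_pow, Int.cast_natCast]
    exact h5
  exact_mod_cast h6

end Pool.Agent.U916.GT
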